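import Pool.Agent.H35.EQ.LEb

/-!
# Row LE of the board on equidistribution, third part: the block
-/

namespace Pool.Agent.H35.EQ

open Pool.Agent.H92.EQ
open scoped BigOperators ComplexConjugate ContDiff ComplexOrder
open MeasureTheory

section
variable {N : ℕ}

theorem hess_cont (h6 : T_W6) {u : (Fin N → ℂ) → ℝ} (hu : Pot u) (i b : Fin N) :
    ContinuousOn (fun z => hessR u z i b) {0}ᶜ := by
  have e1 := (h6 (Fin N) b (cx u) {0}ᶜ isOpen_compl_singleton (cx_smooth hu.smooth)).2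
  have e2 := (h6 (Fin N) i _ {0}ᶜ isOpen_compl_singleton e1).1
  exact e2.continuousOn

theorem hess_bd (hL : T_L2) (h6 : T_W6) (hL6 : T_L6) {u : (Fin N → ℂ) → ℝ} (hu : Pot u)
    (i b : Fin N) : ∃ B : ℝ, 0 < B ∧ ∀ z : Fin N → ℂ, z ≠ 0 → nsq z * ‖hessR u z i b‖ ≤ B := by
  obtain ⟨B, hB, h⟩ := (hL6 N).1 (fun z => nsq z * ‖hessR u z i b‖)
    (nsq_cont.continuousOn.mul (hess_cont h6 hu i b).norm) (by
      intro r z hr hz
      have hrc : (r : ℂ) ≠ 0 := by exact_mod_cast hr.ne'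
      have h2 := ((hL N 1 u ⟨hu.smooth, fun l z hl hz => by
        rw [hu.loghom l z hl hz, one_mul]⟩ z hz).2.2.2.2 (r : ℂ) hrc).2
      rw [h2, nsq_smul, Matrix.smul_apply, smul_eq_mul, norm_mul, norm_inv, Complex.norm_real,
        Complex.norm_real, Real.norm_of_nonneg hr.le, Real.norm_of_nonneg (sq_nonneg r)]
      have : r ≠ 0 := hr.ne'
      field_simp)
  exact ⟨B, hB, fun z hz => (le_abs_self _).trans (h z hz)⟩

theorem V_open (A : Matrix (Fin N) (Fin N) ℂ) : IsOpen {t : ℂ | (BB A t).det ≠ 0} := by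
  have hc : Continuous fun t : ℂ => (BB A t).det := by
    unfold BB
    apply Continuous.matrix_det
    fun_prop
  exact isOpen_ne_fun hc continuous_const

theorem ev_cont (Φ : Fin N → MvPolynomial (Fin N) ℂ) : Continuous (ev Φ) := by
  unfold ev
  exact continuous_pi fun i => MvPolynomial.continuous_eval _

theorem jac_cont (Φ : Fin N → MvPolynomial (Fin N) ℂ) :
    Continuous (fun z : Fin N → ℂ => jac Φ z) := by
  unfold jac
  exact continuous_matrix fun i j => MvPolynomial.continuous_eval _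

theorem nrm_unit {x : Fin N → ℂ} (hx : x ≠ 0) : nrm ((((nrm x)⁻¹ : ℝ) : ℂ) • x) = 1 := by
  have h := nrm_pos hx
  rw [nrm_smul, Complex.norm_real, Real.norm_of_nonneg (by positivity)]
  field_simp

end

theorem pf_LE (hA1 : T_A1) (hLA : T_LA) (hLB : T_LB) (hLC : T_LC) (hLD : T_LD) (hTB : T_TB)
    (hTN : T_TN) (h2 : T_L2) (h6 : T_L6) (h13b : T_A13b) (hP3 : T_P3) (hP4 : T_P4)
    (hP5 : T_P5) (h5 : T_S5) (hW6 : T_W6) (hW9 : T_W9) (hD8 : T_D8) (hD11 : T_D11)
    (hD13 : T_D13) : T_LE := by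
  intro N p q u hu
  by_cases hN : p + q + 1 = N
  swap
  · refine ⟨1, 0, one_pos, ?_⟩
    intro D Φ _ _ κ M ρ _ _ _ _ _ _ _ _ _ S _ A τ hτ _ _
    have hq : ∀ (S' : Form (Fin N) p) (v : Fin q → (Fin N → ℂ) → ℝ) (z : Fin N → ℂ),
        Q S' v z = 0 := by
      intro S' v z
      unfold Q
      rw [mixD_empty (by omega)]
      simp
    have hp : ∀ (φ : (Fin N → ℂ) → ℝ) (S' : Form (Fin N) p) (v : Fin q → (Fin N → ℂ) → ℝ),
        pair φ S' v = 0 := by
      intro φ S' v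
      unfold pair Iint
      simp [hq]
    unfold am mass
    rw [hp, hp, hp]
    simp
  have hN0 : 0 < N := by omega
  have : Nonempty (Fin N) := Fin.pos_iff_nonempty.1 hN0
  obtain ⟨cD, hcD, hLD'⟩ := hLD N
  obtain ⟨C₄, hC₄, hP4'⟩ := hP4 N q u hu
  choose Cj hCj0 hCj using fun j => (h6 N).2.1 (u j) (hu j)
  choose Bj hBj0 hBj using fun (j : Fin q) (i b : Fin N) => hess_bd h2 hW6 h6 (hu j) i b
  obtain ⟨C, hCdef⟩ : ∃ C, C = ∑ j, Cj j := ⟨_, rfl⟩
  obtain ⟨C', hC'def⟩ : ∃ C', C' = ∑ j, ∑ i, ∑ b, Bj j i b := ⟨_, rfl⟩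
  have hC : 0 ≤ C := by
    rw [hCdef]
    exact Finset.sum_nonneg fun j _ => (hCj0 j).le
  have hC' : 0 ≤ C' := by
    rw [hC'def]
    exact Finset.sum_nonneg fun j _ => Finset.sum_nonneg fun i _ => Finset.sum_nonneg
      fun b _ => (hBj0 j i b).le
  have hCC : ∀ j, Cj j ≤ C := fun j => by
    rw [hCdef]
    exact Finset.single_le_sum (fun j _ => (hCj0 j).le) (Finset.mem_univ j)
  have hBC : ∀ j i b, Bj j i b ≤ C' := fun j i b => by
    rw [hC'def]
    refine (Finset.single_le_sum (f := fun b => Bj j i b) (fun b _ => (hBj0 j i b).le)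
      (Finset.mem_univ b)).trans ?_
    refine (Finset.single_le_sum (f := fun i => ∑ b, Bj j i b) (fun i _ =>
      Finset.sum_nonneg fun b _ => (hBj0 j i b).le) (Finset.mem_univ i)).trans ?_
    exact Finset.single_le_sum (f := fun j => ∑ i, ∑ b, Bj j i b) (fun j _ =>
      Finset.sum_nonneg fun i _ => Finset.sum_nonneg fun b _ => (hBj0 j i b).le)
      (Finset.mem_univ j)
  have hDD : ∀ j (x : Fin N → ℂ), x ≠ 0 →
      (((C : ℝ) : ℂ) • hessR ell x - hessR (u j) x).PosSemidef := by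
    intro j x hx
    have := (psd_smul_sub ((pot_ell hW9).psh x hx) (hCC j)).add (hCj j x hx)
    rwa [sub_add_sub_cancel] at this
  have hHH : ∀ (x : Fin N → ℂ), x ≠ 0 → ∀ j i b, ‖hessR (u j) x i b‖ ≤ C' / nsq x := by
    intro x hx j i b
    rw [le_div_iff₀ (nsq_pos hx), mul_comm]
    exact (hBj j i b x hx).trans (hBC j i b)
  obtain ⟨C₅, hC₅⟩ : ∃ C₅, C₅ = N * C₄ + q * 6 ^ q * (C + 2 * N ^ 3 * C') ^ q := ⟨_, rfl⟩
  have hC₅0 : 0 ≤ C₅ := by rw [hC₅]; positivity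
  refine ⟨2 * (cD * C₅) + 1, N + q + 1, by positivity, ?_⟩
  intro D Φ hD1 hΦ κ M ρ hκ hM hρ hρ1 k1 k2 k3 _ k5 S hS A τ hτ hτN hA
  have hM0 : 0 < M := by linarith
  obtain ⟨-, hev, hjac, -⟩ := hD11 N D D Φ Φ hD1 hD1 hΦ hΦ
  obtain ⟨V, hV⟩ : ∃ V, V = {t : ℂ | (BB A t).det ≠ 0} := ⟨_, rfl⟩
  have hVo : IsOpen V := by rw [hV]; exact V_open A
  -- the form on the product
  have hFT : FormT V (pull (GG A Φ) S) := by
    refine (hTB N p D V (GG A Φ) S hVo hD1 ?_ ?_ hS).1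
    · intro l z
      rw [ev_GG, ev_GG]
      have e1 : (ct (z 0) (l • tl z)) 0 = z 0 := rfl
      have e2 : tl (ct (z 0) (l • tl z)) = l • tl z := rfl
      rw [e1, e2, hev, Matrix.mulVec_smul]
    · rintro z ⟨hz1, hz2⟩ h0
      rw [ev_GG] at h0
      rw [hV] at hz1
      exact hz2 (hΦ.nd _ (Matrix.eq_zero_of_mulVec_eq_zero hz1 h0))
  -- the segment
  have hV01 : ∀ s : ℝ, 0 ≤ s → s ≤ 1 → (s : ℂ) ∈ V := by
    intro s hs0 hs1
    rw [hV]
    obtain ⟨i0⟩ := this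
    have he1 : nrm (Pi.single i0 (1 : ℂ) : Fin N → ℂ) = 1 := by
      unfold nrm nsq
      rw [Finset.sum_eq_single i0]
      · simp
      · intro b _ hb
        simp [hb]
      · simp
    have he0 : (Pi.single i0 (1 : ℂ) : Fin N → ℂ) ≠ 0 := by
      intro h
      have := congrFun h i0
      simp at this
    refine (hLD' 1 A (Pi.single i0 1) 1 1 τ s le_rfl one_pos le_rfl hτ hτN hs0 hs1 he0 hA ?_
      ?_).1
    · intro i j
      rw [he1, Matrix.one_apply]
      split_ifs <;> simp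
    · rw [he1]
      simp
  have hκb : ∀ z : Fin N → ℂ, z ≠ 0 → |κ z| ≤ M := by
    intro z hz
    have h := k1 _ (nrm_unit hz)
    rwa [hκ.hom _ z (by
      have := nrm_pos hz
      exact_mod_cast (inv_pos.2 this).ne') hz] at h
  obtain ⟨-, -, hTN'⟩ := hTN N p q D Φ S κ u M hN hD1 hΦ hS hκ hu hκb
  have hmass : mass q (pull Φ S) = (D : ℝ) ^ p * mass q S := (hP5 N p q D S hN hS).1 Φ hD1 hΦ
  have hmass0 : 0 ≤ mass q (pull Φ S) := by
    rw [hmass]
    exact mul_nonneg (by positivity) (hP5 N p q D S hN hS).2.2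
  obtain ⟨b, hb⟩ : ∃ b, b = cD * C₅ * (M / ρ) ^ (N + q + 1) * τ := ⟨_, rfl⟩
  have hb0 : 0 ≤ b := by rw [hb]; positivity
  -- the pointwise estimate
  have hpt : ∀ s : ℝ, 0 ≤ s → s ≤ 1 → ∀ x : Fin N → ℂ, x ≠ 0 →
      ‖PsiT (pull (GG A Φ) S) κ u (ct (s : ℂ) x)‖ ≤
        b * Q (res (pull (GG A Φ) S) (s : ℂ)) (fun _ : Fin q => ell) x := by
    intro s hs0 hs1 x hx
    have hsV := hV01 s hs0 hs1
    have hdet : (BB A (s : ℂ)).det ≠ 0 := by rw [hV] at hsV; exact hsV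
    have hS' : ProjForm (res (pull (GG A Φ) S) (s : ℂ)) := by
      rw [res_GG hD8 hD13]
      exact (hTN' _ hdet).1
    have hQe : 0 ≤ Q (res (pull (GG A Φ) S) (s : ℂ)) (fun _ : Fin q => ell) x :=
      (hP3 N p q _ _ hN hS' (fun _ => pot_ell hW9)).1 x hx
    have hQu : 0 ≤ Q (res (pull (GG A Φ) S) (s : ℂ)) u x := (hP3 N p q _ _ hN hS' hu).1 x hx
    obtain ⟨R, hR⟩ : ∃ R, R = nrm x := ⟨_, rfl⟩
    have hR0 : 0 < R := by rw [hR]; exact nrm_pos hx
    have hRc : (R : ℂ) ≠ 0 := by exact_mod_cast hR0.ne'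
    obtain ⟨g, hg⟩ : ∃ g : (Fin N → ℂ) → ℝ, g = fun y =>
      ‖(jac Φ ((((nrm y)⁻¹ : ℝ) : ℂ) • y)).det‖ -
        ρ * nrm (ev Φ ((((nrm y)⁻¹ : ℝ) : ℂ) • y)) ^ N := ⟨_, rfl⟩
    by_cases hgx : 0 ≤ g x
    · obtain ⟨x₀, hx₀⟩ : ∃ x₀, x₀ = ((((nrm x)⁻¹ : ℝ) : ℂ) • x) := ⟨_, rfl⟩
      have hx1 : nrm x₀ = 1 := by rw [hx₀]; exact nrm_unit hx
      have hx0 : x₀ ≠ 0 := by
        intro h
        rw [h] at hx1
        unfold nrm at hx1
        rw [nsq_zero, Real.sqrt_zero] at hx1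
        exact zero_ne_one hx1
      have hxx : x = (R : ℂ) • x₀ := by
        rw [hx₀, smul_smul, ← hR, ← Complex.ofReal_mul, mul_inv_cancel₀ hR0.ne',
          Complex.ofReal_one, one_smul]
      have hy0 : ev Φ x₀ ≠ 0 := fun h => hx0 (hΦ.nd _ h)
      obtain ⟨-, ξ₀, hξ1, hξ2⟩ := hLD' (jac Φ x₀) A (ev Φ x₀) M ρ τ s hM hρ hρ1 hτ hτN hs0 hs1
        hy0 hA (k3 x₀ hx1) (by
          rw [hg] at hgx
          simp only [← hx₀] at hgx
          linarith)
      have hkill := killed A Φ S (s : ℂ) x ((R : ℂ) • ξ₀) (by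
        have e1 : jac Φ x = (R : ℂ) ^ (D - 1) • jac Φ x₀ := by rw [hxx, hjac]
        have e2 : ev Φ x = (R : ℂ) ^ D • ev Φ x₀ := by rw [hxx, hev]
        rw [e1, e2, Matrix.mul_smul, Matrix.smul_mulVec, Matrix.mulVec_smul, Matrix.mulVec_smul,
          smul_smul]
        have e3 : (R : ℂ) ^ (D - 1) * R = (R : ℂ) ^ D := by
          rw [← pow_succ]
          congr 1
          omega
        rw [e3]
        congr 1)
      have hw : ∀ a, ‖wd a (cx κ) x‖ ≤ M / nrm x := by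
        intro a
        have e1 := ((h2 N 0 κ (LH_hom0 hκ) x₀ hx0).2.2.2.2 (R : ℂ) hRc).1 a
        rw [← hxx] at e1
        rw [e1, norm_mul, norm_inv, Complex.norm_real, Real.norm_of_nonneg hR0.le, ← hR,
          inv_mul_eq_div]
        exact div_le_div_of_nonneg_right (k2 x₀ hx1 a) hR0.le
      have hΨ := hLA N p q V (pull (GG A Φ) S) κ u (s : ℂ) x ((R : ℂ) • ξ₀) hVo hFT hκ hu hsV hx
        hkill
      obtain ⟨T, hT⟩ : ∃ T, T = cD * M ^ N / ρ * τ := ⟨_, rfl⟩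
      have hT0 : 0 ≤ T := by rw [hT]; positivity
      have hξn : nrm ((R : ℂ) • ξ₀) ≤ nrm x * T := by
        rw [nrm_smul, Complex.norm_real, Real.norm_of_nonneg hR0.le, ← hR, hT]
        exact mul_le_mul_of_nonneg_left hξ2 hR0.le
      have h30 := ptw hA1 h13b hLC hW9 h2 h5 hN (res (pull (GG A Φ) S) (s : ℂ)) hS' κ hκ u hu x
        ((R : ℂ) • ξ₀) hx M T C C' C₄ hM hT0 hC hC' hξn hw (hHH x hx) (fun j => hDD j x hx)
        (hP4' p _ hN hS' x hx) hQu hQe _ hΨ
      refine h30.trans (mul_le_mul_of_nonneg_right ?_ hQe)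
      rw [← hC₅, hT, hb]
      have e5 : M ^ N / ρ * M ^ (q + 1) ≤ (M / ρ) ^ (N + q + 1) := by
        rw [div_pow, div_mul_eq_mul_div, ← pow_add, ← add_assoc]
        apply div_le_div_of_nonneg_left (by positivity) (by positivity)
        calc ρ ^ (N + q + 1) ≤ ρ ^ 1 := pow_le_pow_of_le_one hρ.le hρ1 (by omega)
          _ = ρ := pow_one ρ
      calc cD * M ^ N / ρ * τ * (C₅ * M ^ (q + 1)) =
            cD * C₅ * (M ^ N / ρ * M ^ (q + 1)) * τ := by ring
        _ ≤ cD * C₅ * (M / ρ) ^ (N + q + 1) * τ := by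
            refine mul_le_mul_of_nonneg_right ?_ hτ
            exact mul_le_mul_of_nonneg_left e5 (by positivity)
    · push Not at hgx
      have hgc : ContinuousAt g x := by
        rw [hg]
        have c1 : ContinuousAt (fun y : Fin N → ℂ => ((((nrm y)⁻¹ : ℝ) : ℂ) • y)) x := by
          have c0 : ContinuousAt (fun y : Fin N → ℂ => (((nrm y)⁻¹ : ℝ) : ℂ)) x := by
            have c00 : ContinuousAt (fun y : Fin N → ℂ => (nrm y)⁻¹) x :=
              ContinuousAt.inv₀ nrm_cont.continuousAt (nrm_pos hx).ne'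
            exact Complex.continuous_ofReal.continuousAt.comp c00
          exact c0.smul continuousAt_id
        have c2 : ContinuousAt (fun y : Fin N → ℂ =>
            ‖(jac Φ ((((nrm y)⁻¹ : ℝ) : ℂ) • y)).det‖) x := by
          have c3 : Continuous fun y : Fin N → ℂ => ‖(jac Φ y).det‖ :=
            (Continuous.matrix_det (jac_cont Φ)).norm
          exact c3.continuousAt.comp c1
        have c4 : ContinuousAt (fun y : Fin N → ℂ =>
            ρ * nrm (ev Φ ((((nrm y)⁻¹ : ℝ) : ℂ) • y)) ^ N) x := by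
          have c5 : Continuous fun y : Fin N → ℂ => ρ * nrm (ev Φ y) ^ N :=
            continuous_const.mul ((nrm_cont.comp (ev_cont Φ)).pow N)
          exact c5.continuousAt.comp c1
        exact c2.sub c4
      have hev0 : ∀ᶠ y in nhds x, κ y = 0 := by
        filter_upwards [hgc.eventually (gt_mem_nhds hgx),
          isOpen_compl_singleton.mem_nhds (show x ∈ ({0}ᶜ : Set (Fin N → ℂ)) from hx)]
          with y hy1 hy2
        by_contra hκy
        have hy3 : y ≠ 0 := hy2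
        have h31 : κ ((((nrm y)⁻¹ : ℝ) : ℂ) • y) ≠ 0 := by
          rw [hκ.hom _ y (by exact_mod_cast (inv_pos.2 (nrm_pos hy3)).ne') hy3]
          exact hκy
        have h32 := k5 _ (nrm_unit hy3) h31
        rw [hg] at hy1
        simp only at hy1
        linarith
      rw [Psi_zero hA1 _ κ u _ x hev0, norm_zero]
      exact mul_nonneg hb0 hQe
  -- the derivative
  have hae : ∀ᵐ z : Fin N → ℂ, z ≠ 0 := by
    rw [ae_iff]
    simp
  have hder : ∀ s : ℝ, 0 ≤ s → s ≤ 1 →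
      ‖2 * Iint (fun x => (PsiT (pull (GG A Φ) S) κ u (ct (s : ℂ) x)).re)‖ ≤
        2 * b * mass q (pull Φ S) := by
    intro s hs0 hs1
    have hsV := hV01 s hs0 hs1
    have hdet : (BB A (s : ℂ)).det ≠ 0 := by rw [hV] at hsV; exact hsV
    have hS' : ProjForm (res (pull (GG A Φ) S) (s : ℂ)) := by
      rw [res_GG hD8 hD13]
      exact (hTN' _ hdet).1
    have hm' : mass q (res (pull (GG A Φ) S) (s : ℂ)) = mass q (pull Φ S) := by
      rw [res_GG hD8 hD13, hmass]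
      exact (hTN' _ hdet).2
    have hle := LH_ell (N := N) hW9
    obtain ⟨qc, -, -⟩ := h5 N p q (res (pull (GG A Φ) S) (s : ℂ)) (fun _ : Fin q => ell)
      (fun _ => 1) hN hS' (fun _ => hle)
    have hint := int_ann _ qc hN0
    have h40 : ‖Iint (fun x => (PsiT (pull (GG A Φ) S) κ u (ct (s : ℂ) x)).re)‖ ≤
        b * mass q (pull Φ S) := by
      unfold Iint
      refine (norm_integral_le_of_norm_le (hint.const_mul b) ?_).trans (le_of_eq ?_)
      · refine ae_restrict_of_ae (hae.mono fun x hx => ?_)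
        exact (Complex.abs_re_le_norm _).trans (hpt s hs0 hs1 x hx)
      · rw [integral_const_mul, ← hm']
        congr 1
        unfold mass pair Iint
        simp
    rw [norm_mul, Real.norm_of_nonneg (by norm_num : (0 : ℝ) ≤ 2)]
    calc 2 * ‖Iint (fun x => (PsiT (pull (GG A Φ) S) κ u (ct (s : ℂ) x)).re)‖ ≤
          2 * (b * mass q (pull Φ S)) := mul_le_mul_of_nonneg_left h40 (by norm_num)
      _ = _ := by ring
  have hmvt := (convex_Icc (0 : ℝ) 1).norm_image_sub_le_of_norm_hasDerivWithin_le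
    (f := fun s : ℝ => pair κ (res (pull (GG A Φ) S) (s : ℂ)) u)
    (f' := fun s : ℝ => 2 * Iint (fun x => (PsiT (pull (GG A Φ) S) κ u (ct (s : ℂ) x)).re))
    (C := 2 * b * mass q (pull Φ S))
    (fun s hs => (hLB N p q V (pull (GG A Φ) S) κ u s hN hVo hFT hκ hu
      (hV01 s hs.1 hs.2)).1.hasDerivWithinAt)
    (fun s hs => hder s hs.1 hs.2) (Set.left_mem_Icc.2 zero_le_one)
    (Set.right_mem_Icc.2 zero_le_one)
  have f1 : pair κ (res (pull (GG A Φ) S) ((1 : ℝ) : ℂ)) u = am κ Φ S u A := by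
    rw [res_GG hD8 hD13, Complex.ofReal_one, BB_one]
    rfl
  have f0 : pair κ (res (pull (GG A Φ) S) ((0 : ℝ) : ℂ)) u = pair κ (pull Φ S) u := by
    rw [res_GG hD8 hD13, Complex.ofReal_zero, BB_zero, pull_one hD8 hD13]
  simp only [f1, f0] at hmvt
  rw [Real.norm_eq_abs, sub_zero, norm_one, mul_one] at hmvt
  refine hmvt.trans ?_
  refine mul_le_mul_of_nonneg_right ?_ hmass0
  rw [hb]
  have hk : 0 ≤ (M / ρ) ^ (N + q + 1) * τ := by positivity
  nlinarith

end Pool.Agent.H35.EQ
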