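import Pool.Agent.H92.EQ.TF2

/-!
# Row S6 of the board on equidistribution: Stokes on projective space
-/

namespace Pool.Agent.H35.EQ

open Pool.Agent.H92.EQ
open scoped BigOperators ComplexConjugate ContDiff ComplexOrder
open MeasureTheory

theorem two_le_inf : (2 : ℕ∞ω) ≤ ∞ := WithTop.coe_le_coe.2 le_top

/-! ### A bump function -/

theorem bump : ∃ χ : ℝ → ℝ, ContDiff ℝ ∞ χ ∧ HasCompactSupport χ ∧ ∫ t, χ t = 1 ∧
    ∀ t, (t ≤ 1 / 4 ∨ 3 / 4 ≤ t) → χ t = 0 := by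
  let B : ContDiffBump (1 / 2 : ℝ) := ⟨1 / 8, 1 / 4, by norm_num, by norm_num⟩
  refine ⟨B.normed volume, B.contDiff_normed, B.hasCompactSupport_normed, B.integral_normed, ?_⟩
  intro t ht
  by_contra hne
  have h1 : t ∈ Function.support (B.normed volume) := hne
  rw [B.support_normed_eq, Metric.mem_ball, Real.dist_eq] at h1
  have h2 : B.rOut = 1 / 4 := rfl
  rw [h2] at h1
  obtain ⟨h3, h4⟩ := abs_lt.1 h1
  rcases ht with h | h <;> linarith

theorem bump_der (χ : ℝ → ℝ) (h1 : ContDiff ℝ ∞ χ) (h2 : HasCompactSupport χ) :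
    Integrable χ ∧ Integrable (fun t => deriv χ t + t * deriv (deriv χ) t) ∧
    ∫ t, (deriv χ t + t * deriv (deriv χ) t) = 0 ∧
    Continuous (fun t => deriv χ t + t * deriv (deriv χ) t) := by
  have d1 := (contDiff_infty_iff_deriv.1 h1).2
  have d2 := (contDiff_infty_iff_deriv.1 d1).2
  have c1 : HasCompactSupport (deriv χ) := h2.deriv
  have c2 : HasCompactSupport (deriv (deriv χ)) := c1.deriv
  have hcont : Continuous (fun t => deriv χ t + t * deriv (deriv χ) t) :=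
    d1.continuous.add (continuous_id.mul d2.continuous)
  have i1 : Integrable (deriv χ) := d1.continuous.integrable_of_hasCompactSupport c1
  have i2 : Integrable (fun t => t * deriv (deriv χ) t) :=
    (continuous_id.mul d2.continuous).integrable_of_hasCompactSupport c2.mul_left
  have i3 : Integrable (fun t => t * deriv χ t) :=
    (continuous_id.mul d1.continuous).integrable_of_hasCompactSupport c1.mul_left
  refine ⟨h1.continuous.integrable_of_hasCompactSupport h2, i1.add i2, ?_, hcont⟩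
  refine integral_eq_zero_of_hasDerivAt_of_integrable (f := fun t => t * deriv χ t) ?_
    (i1.add i2) i3
  intro t
  have h5 : HasDerivAt (deriv χ) (deriv (deriv χ) t) t :=
    ((contDiff_infty_iff_deriv.1 d1).1 t).hasDerivAt
  have h6 := (hasDerivAt_id t).mul h5
  refine h6.congr_deriv ?_
  simp

/-! ### The function `log |z|` -/

section
variable {N : ℕ}

theorem nsq_nonneg (z : Fin N → ℂ) : 0 ≤ nsq z := Finset.sum_nonneg fun _ _ => sq_nonneg _

theorem nsq_pos {z : Fin N → ℂ} (hz : z ≠ 0) : 0 < nsq z := by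
  obtain ⟨i, hi⟩ := Function.ne_iff.1 hz
  have h1 : 0 < ‖z i‖ ^ 2 := by
    have : 0 < ‖z i‖ := norm_pos_iff.2 hi
    positivity
  exact lt_of_lt_of_le h1 (Finset.single_le_sum (f := fun i => ‖z i‖ ^ 2)
    (fun i _ => sq_nonneg _) (Finset.mem_univ i))

theorem nsq_zero : nsq (0 : Fin N → ℂ) = 0 := by simp [nsq]

theorem ell_zero : ell (0 : Fin N → ℂ) = 0 := by simp [ell, nsq_zero]

theorem nsq_cont : Continuous (nsq : (Fin N → ℂ) → ℝ) := by
  unfold nsq
  fun_prop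

theorem nsq_smul (l : ℂ) (z : Fin N → ℂ) : nsq (l • z) = ‖l‖ ^ 2 * nsq z := by
  unfold nsq
  rw [Finset.mul_sum]
  refine Finset.sum_congr rfl fun i _ => ?_
  simp [mul_pow]

theorem ell_smul (l : ℂ) (z : Fin N → ℂ) (hl : l ≠ 0) (hz : z ≠ 0) :
    ell (l • z) = ell z + Real.log ‖l‖ := by
  have h1 : ‖l‖ ^ 2 ≠ 0 := by simpa using hl
  unfold ell
  rw [nsq_smul, Real.log_mul h1 (nsq_pos hz).ne', Real.log_pow]
  push_cast
  ring

theorem ell_lo {z : Fin N → ℂ} (hz : z ≠ 0) (t : ℝ) : t ≤ ell z ↔ Real.exp (2 * t) ≤ nsq z := by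
  unfold ell
  rw [← Real.le_log_iff_exp_le (nsq_pos hz)]
  constructor <;> intro h <;> linarith

theorem ell_hi {z : Fin N → ℂ} (hz : z ≠ 0) (t : ℝ) : ell z ≤ t ↔ nsq z ≤ Real.exp (2 * t) := by
  unfold ell
  rw [← Real.log_le_iff_le_exp (nsq_pos hz)]
  constructor <;> intro h <;> linarith

theorem ann (s t : ℝ) : IsCompact {z : Fin N → ℂ | s ≤ nsq z ∧ nsq z ≤ t} := by
  refine Metric.isCompact_of_isClosed_isBounded ?_ ?_
  · exact (isClosed_le continuous_const nsq_cont).inter (isClosed_le nsq_cont continuous_const)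
  · refine (Metric.isBounded_closedBall (x := (0 : Fin N → ℂ)) (r := |t| + 1)).subset ?_
    rintro z ⟨-, hz⟩
    rw [mem_closedBall_zero_iff, pi_norm_le_iff_of_nonneg (by positivity)]
    intro i
    have h1 : ‖z i‖ ^ 2 ≤ t := (Finset.single_le_sum (f := fun i => ‖z i‖ ^ 2)
      (fun i _ => sq_nonneg _) (Finset.mem_univ i)).trans hz
    by_contra hcon
    push Not at hcon
    have h2 := le_abs_self t
    have h3 := abs_nonneg t
    nlinarith

theorem int_ann (ψ : (Fin N → ℂ) → ℝ) (hψ : ContinuousOn ψ {0}ᶜ) (hN : 0 < N) :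
    IntegrableOn ψ {z : Fin N → ℂ | 0 ≤ ell z ∧ ell z < 1} := by
  have : Nonempty (Fin N) := Fin.pos_iff_nonempty.1 hN
  have h1 : {z : Fin N → ℂ | 0 ≤ ell z ∧ ell z < 1} ⊆
      {z : Fin N → ℂ | Real.exp (2 * 0) ≤ nsq z ∧ nsq z ≤ Real.exp (2 * 1)} ∪ {0} := by
    rintro z ⟨h0, h2⟩
    by_cases hz : z = 0
    · exact Or.inr hz
    · exact Or.inl ⟨(ell_lo hz 0).1 h0, (ell_hi hz 1).1 h2.le⟩
  refine IntegrableOn.mono_set (IntegrableOn.union ?_ ?_) h1
  · refine ContinuousOn.integrableOn_compact (ann _ _) (hψ.mono ?_)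
    rintro z ⟨h2, -⟩ h3
    rw [h3, nsq_zero] at h2
    exact absurd h2 (not_le.2 (Real.exp_pos _))
  · exact integrableOn_singleton (hx := isCompact_singleton.measure_lt_top)

theorem LH_ell (h9 : T_W9) : LH 1 (ell : (Fin N → ℂ) → ℝ) :=
  ⟨(h9 (Fin N)).1, fun l z hl hz => by rw [ell_smul l z hl hz, one_mul]⟩

theorem LH_hom0 {f : (Fin N → ℂ) → ℝ} (hf : Hom0 f) : LH 0 f :=
  ⟨hf.smooth, fun l z hl hz => by rw [hf.hom l z hl hz]; ring⟩

theorem cdAt {f : (Fin N → ℂ) → ℝ} (hf : ContDiffOn ℝ ∞ f {0}ᶜ) {z : Fin N → ℂ} (hz : z ≠ 0) :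
    ContDiffAt ℝ ∞ f z :=
  hf.contDiffAt (isOpen_compl_singleton.mem_nhds hz)

theorem cdAt2 {f : (Fin N → ℂ) → ℝ} (hf : ContDiffOn ℝ ∞ f {0}ᶜ) {z : Fin N → ℂ} (hz : z ≠ 0) :
    ContDiffAt ℝ 2 f z :=
  (cdAt hf hz).of_le two_le_inf

theorem cx_smooth {f : (Fin N → ℂ) → ℝ} {U : Set (Fin N → ℂ)} (hf : ContDiffOn ℝ ∞ f U) :
    ContDiffOn ℝ ∞ (cx f) U :=
  Complex.ofRealCLM.contDiff.comp_contDiffOn hf

/-! ### The Hessians -/

theorem rad_eq (h9 : T_W9) {z : Fin N → ℂ} (hz : z ≠ 0) :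
    out (gd (cx ell) z) (gdb (cx ell) z) = Rad z := by
  obtain ⟨-, h⟩ := h9 (Fin N)
  obtain ⟨h1, h2, -⟩ := h z hz
  ext a b
  simp only [out, gd, gdb, Rad, h1, h2]
  have h3 : (nsq z : ℂ) ≠ 0 := by exact_mod_cast (nsq_pos hz).ne'
  field_simp
  ring

/-- the square of `log |z|` -/
noncomputable def rr (z : Fin N → ℂ) : ℝ := ell z ^ 2 / 2

theorem hess_rr (h7 : T_W7) (h9 : T_W9) {z : Fin N → ℂ} (hz : z ≠ 0) :
    hessR rr z = ((ell z : ℝ) : ℂ) • hessR ell z + out (gd (cx ell) z) (gdb (cx ell) z) := by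
  have hc : ContDiff ℝ 2 (fun t : ℝ => t ^ 2 / 2) := by fun_prop
  have he := cdAt2 (h9 (Fin N)).1 hz
  obtain ⟨-, -, h, -⟩ := h7 (Fin N) ell ell (fun t => t ^ 2 / 2) z he he hc.contDiffAt
  have d1 : deriv (fun t : ℝ => t ^ 2 / 2) = fun t => t := by
    funext t
    simp
  have d2 : deriv (fun t : ℝ => t) = fun _ => 1 := by
    funext t
    simp
  rw [d1, d2] at h
  have h' : hessR rr z = hessR (fun w => (fun t : ℝ => t ^ 2 / 2) (ell w)) z := rfl
  rw [h', h]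
  simp

theorem hess_a (h7 : T_W7) (h9 : T_W9) (χ : ℝ → ℝ) (hχ : ContDiff ℝ ∞ χ)
    {f : (Fin N → ℂ) → ℝ} (hf : ContDiffOn ℝ ∞ f {0}ᶜ) {z : Fin N → ℂ} (hz : z ≠ 0) :
    hessR (fun w => χ (ell w) * f w) z =
      ((χ (ell z) : ℝ) : ℂ) • hessR f z +
      (((f z : ℝ) : ℂ) * ((deriv χ (ell z) : ℝ) : ℂ)) • hessR ell z +
      (((f z : ℝ) : ℂ) * ((deriv (deriv χ) (ell z) : ℝ) : ℂ)) •
        out (gd (cx ell) z) (gdb (cx ell) z) +
      ((deriv χ (ell z) : ℝ) : ℂ) • (out (gd (cx ell) z) (gdb (cx f) z) +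
        out (gd (cx f) z) (gdb (cx ell) z)) := by
  have he := cdAt2 (h9 (Fin N)).1 hz
  have hfz := cdAt2 hf hz
  have hχ2 : ContDiffAt ℝ 2 χ (ell z) := hχ.contDiffAt.of_le two_le_inf
  have hA : ContDiffAt ℝ 2 (fun w => χ (ell w)) z := hχ2.comp z he
  obtain ⟨a1, a2, a3, -⟩ := h7 (Fin N) ell ell χ z he he hχ2
  obtain ⟨-, -, -, a4⟩ := h7 (Fin N) (fun w => χ (ell w)) f χ z hA hfz
    (hχ.contDiffAt.of_le two_le_inf)
  have b1 : gd (cx fun w : Fin N → ℂ => χ (ell w)) z =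
      fun a => ((deriv χ (ell z) : ℝ) : ℂ) * gd (cx ell) z a := funext a1
  have b2 : gdb (cx fun w : Fin N → ℂ => χ (ell w)) z =
      fun a => ((deriv χ (ell z) : ℝ) : ℂ) * gdb (cx ell) z a := funext a2
  rw [a4, a3, b1, b2]
  ext a b
  simp only [out, Matrix.add_apply, Matrix.smul_apply, smul_eq_mul]
  ring

/-! ### The slots -/

/-- the functions in the slots -/
def WW {q : ℕ} (u : Fin q → (Fin N → ℂ) → ℝ) (j : Fin q) (g : (Fin N → ℂ) → ℝ)
    (r : (Fin N → ℂ) → ℝ) : Fin (q + 1) → (Fin N → ℂ) → ℝ :=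
  Fin.snoc (α := fun _ => (Fin N → ℂ) → ℝ) (Function.update u j g) r

theorem WW_j {q : ℕ} (u : Fin q → (Fin N → ℂ) → ℝ) (j : Fin q) (g r : (Fin N → ℂ) → ℝ) :
    WW u j g r j.castSucc = g := by
  unfold WW
  rw [Fin.snoc_castSucc, Function.update_self]

theorem WW_ne {q : ℕ} (u : Fin q → (Fin N → ℂ) → ℝ) (j : Fin q) (g f r : (Fin N → ℂ) → ℝ)
    (i : Fin (q + 1)) (hi : i ≠ j.castSucc) : WW u j g r i = WW u j f r i := by
  unfold WW
  refine Fin.lastCases (motive := fun i => i ≠ j.castSucc →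
    (Fin.snoc (α := fun _ => (Fin N → ℂ) → ℝ) (Function.update u j g) r : Fin (q + 1) → _) i =
    (Fin.snoc (α := fun _ => (Fin N → ℂ) → ℝ) (Function.update u j f) r : Fin (q + 1) → _) i)
    ?_ ?_ i hi
  · intro _
    rw [Fin.snoc_last, Fin.snoc_last]
  · intro i hi
    have h1 : i ≠ j := fun h => hi (by rw [h])
    rw [Fin.snoc_castSucc, Fin.snoc_castSucc, Function.update_of_ne h1,
      Function.update_of_ne h1]

theorem slot (hA2 : T_A2) {p q : ℕ} (S : (Fin p → Fin N) → (Fin p → Fin N) → ℂ)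
    (M : Fin (q + 1) → Matrix (Fin N) (Fin N) ℂ) (j : Fin q) :
    mixD S (Fin.cons (α := fun _ => Matrix (Fin N) (Fin N) ℂ) (M j.castSucc)
      (fun k : Fin q => M (Equiv.swap 0 j.castSucc k.succ))) = mixD S M := by
  rw [← hA2 (Fin N) p (q + 1) S M (Equiv.swap 0 j.castSucc)]
  congr 1
  funext i
  refine Fin.cases ?_ (fun k => ?_) i
  · rw [Fin.cons_zero, Equiv.swap_apply_left]
  · rw [Fin.cons_succ]

theorem swap_ne {q : ℕ} (j : Fin q) (k : Fin q) :
    Equiv.swap (0 : Fin (q + 1)) j.castSucc k.succ ≠ j.castSucc := by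
  intro h
  have h1 : Equiv.swap (0 : Fin (q + 1)) j.castSucc k.succ =
      Equiv.swap (0 : Fin (q + 1)) j.castSucc 0 := by
    rw [h, Equiv.swap_apply_left]
  exact Fin.succ_ne_zero k ((Equiv.swap (0 : Fin (q + 1)) j.castSucc).injective h1)

theorem snoc_eq {q : ℕ} (u : Fin q → (Fin N → ℂ) → ℝ) (j : Fin q) (g r : (Fin N → ℂ) → ℝ)
    (z : Fin N → ℂ) : (fun i => hess (cx (WW u j g r i)) z) =
      Function.update (Function.update (Fin.snoc (α := fun _ => Matrix (Fin N) (Fin N) ℂ)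
        (fun i => hessR (u i) z) 0) j.castSucc (hessR g z)) (Fin.last q) (hessR r z) := by
  funext i
  refine Fin.lastCases ?_ (fun i => ?_) i
  · rw [Function.update_self]
    unfold WW
    rw [Fin.snoc_last]
    rfl
  · have h1 : (i.castSucc : Fin (q + 1)) ≠ Fin.last q := (Fin.castSucc_lt_last i).ne
    rw [Function.update_of_ne h1]
    by_cases h2 : i = j
    · rw [h2, Function.update_self, WW_j]
      rfl
    · have h3 : (i.castSucc : Fin (q + 1)) ≠ j.castSucc := fun h => h2 (Fin.castSucc_injective _ h)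
      rw [Function.update_of_ne h3, Fin.snoc_castSucc]
      unfold WW
      rw [Fin.snoc_castSucc, Function.update_of_ne h2]
      rfl

theorem snoc_eq' {q : ℕ} (u : Fin q → (Fin N → ℂ) → ℝ) (j : Fin q) (g : (Fin N → ℂ) → ℝ)
    (R : Matrix (Fin N) (Fin N) ℂ)
    (z : Fin N → ℂ) : (Fin.snoc (α := fun _ => Matrix (Fin N) (Fin N) ℂ)
        (fun i => hessR (Function.update u j g i) z) R : Fin (q + 1) → _) =
      Function.update (Function.update (Fin.snoc (α := fun _ => Matrix (Fin N) (Fin N) ℂ)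
        (fun i => hessR (u i) z) 0) j.castSucc (hessR g z)) (Fin.last q) R := by
  funext i
  refine Fin.lastCases ?_ (fun i => ?_) i
  · rw [Function.update_self, Fin.snoc_last]
  · have h1 : (i.castSucc : Fin (q + 1)) ≠ Fin.last q := (Fin.castSucc_lt_last i).ne
    rw [Function.update_of_ne h1, Fin.snoc_castSucc]
    by_cases h2 : i = j
    · rw [h2, Function.update_self, Function.update_self]
    · have h3 : (i.castSucc : Fin (q + 1)) ≠ j.castSucc := fun h => h2 (Fin.castSucc_injective _ h)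
      rw [Function.update_of_ne h3, Fin.snoc_castSucc, Function.update_of_ne h2]

/-! ### The test function -/

theorem a_zero (χ : ℝ → ℝ) (hχ0 : ∀ t, (t ≤ 1 / 4 ∨ 3 / 4 ≤ t) → χ t = 0)
    (z : Fin N → ℂ) (hz : z ∉ {z : Fin N → ℂ | Real.exp (2 * (1 / 4)) ≤ nsq z ∧
      nsq z ≤ Real.exp (2 * (3 / 4))}) : χ (ell z) = 0 := by
  apply hχ0
  by_cases h0 : z = 0
  · rw [h0, ell_zero]
    left
    norm_num
  · by_contra hcon
    push Not at hcon
    exact hz ⟨(ell_lo h0 _).1 hcon.1.le, (ell_hi h0 _).1 hcon.2.le⟩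

theorem a_supp (χ : ℝ → ℝ) (hχ0 : ∀ t, (t ≤ 1 / 4 ∨ 3 / 4 ≤ t) → χ t = 0)
    (f : (Fin N → ℂ) → ℝ) :
    tsupport (cx fun w : Fin N → ℂ => χ (ell w) * f w) ⊆
      {z : Fin N → ℂ | Real.exp (2 * (1 / 4)) ≤ nsq z ∧ nsq z ≤ Real.exp (2 * (3 / 4))} := by
  apply closure_minimal _ (ann _ _).isClosed
  intro z hz
  by_contra hcon
  apply hz
  simp only [cx]
  rw [a_zero χ hχ0 z hcon]
  simp

theorem a_cpt (χ : ℝ → ℝ) (hχ0 : ∀ t, (t ≤ 1 / 4 ∨ 3 / 4 ≤ t) → χ t = 0)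
    (f : (Fin N → ℂ) → ℝ) :
    HasCompactSupport (cx fun w : Fin N → ℂ => χ (ell w) * f w) :=
  (ann _ _).of_isClosed_subset (isClosed_tsupport _) (a_supp χ hχ0 f)

theorem a_sub (χ : ℝ → ℝ) (hχ0 : ∀ t, (t ≤ 1 / 4 ∨ 3 / 4 ≤ t) → χ t = 0)
    (f : (Fin N → ℂ) → ℝ) :
    tsupport (cx fun w : Fin N → ℂ => χ (ell w) * f w) ⊆ {0}ᶜ := by
  intro z hz h0
  obtain ⟨h1, -⟩ := a_supp χ hχ0 f hz
  rw [h0, nsq_zero] at h1
  exact absurd h1 (not_le.2 (Real.exp_pos _))

theorem a_smooth (χ : ℝ → ℝ) (hχ : ContDiff ℝ ∞ χ)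
    (hχ0 : ∀ t, (t ≤ 1 / 4 ∨ 3 / 4 ≤ t) → χ t = 0) (h9 : T_W9)
    (f : (Fin N → ℂ) → ℝ) (hf : ContDiffOn ℝ ∞ f {0}ᶜ) :
    ContDiff ℝ ∞ (cx fun w : Fin N → ℂ => χ (ell w) * f w) := by
  rw [contDiff_iff_contDiffAt]
  intro z
  by_cases hz : z ∈ tsupport (cx fun w : Fin N → ℂ => χ (ell w) * f w)
  swap
  · have h2 := notMem_tsupport_iff_eventuallyEq.1 hz
    exact contDiffAt_const.congr_of_eventuallyEq h2
  have hz0 : z ≠ 0 := a_sub χ hχ0 f hz
  have h1 : ContDiffAt ℝ ∞ (fun w : Fin N → ℂ => χ (ell w) * f w) z :=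
    (hχ.contDiffAt.comp z (cdAt (h9 (Fin N)).1 hz0)).mul (cdAt hf hz0)
  exact Complex.ofRealCLM.contDiff.contDiffAt.comp z h1

end

/-- S6: Stokes on projective space. -/
theorem s6 (h3 : T_S3) (h4 : T_S4) (h5 : T_S5) (h16 : T_A16) (h1 : T_A1) (h2 : T_A2)
    (hA7 : T_A7) (h7 : T_W7) (h9 : T_W9) (hL : T_L2) : T_S6 := by
  intro N p q S u c j f g hN hS hu hf hg
  have hq : 0 < q := j.pos
  have hN0 : 0 < N := by omega
  have : Nonempty (Fin N) := Fin.pos_iff_nonempty.1 hN0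
  obtain ⟨χ, hχ, hχc, hχ1, hχ0⟩ := bump
  obtain ⟨iχ, iθ, iθ0, cθ⟩ := bump_der χ hχ hχc
  have hae : ∀ᵐ z : Fin N → ℂ, z ≠ 0 := by
    rw [ae_iff]
    simp
  have lf := LH_hom0 hf
  have lg := LH_hom0 hg
  have le := LH_ell (N := N) h9
  have hcf : ClosedForm {0}ᶜ S := ⟨hS.cp.smooth, hS.cp.altL, hS.cp.altR, hS.cp.closedL,
    hS.cp.closedR⟩
  have hup : ∀ (w : (Fin N → ℂ) → ℝ) (c' : ℝ), LH c' w →
      ∀ i, LH (Function.update c j c' i) (Function.update u j w i) := by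
    intro w c' hw i
    by_cases hi : i = j
    · rw [hi, Function.update_self, Function.update_self]
      exact hw
    · rw [Function.update_of_ne hi, Function.update_of_ne hi]
      exact hu i
  obtain ⟨qf1, qf2, qf3⟩ := h5 N p q S _ _ hN hS (hup f 0 lf)
  obtain ⟨qg1, qg2, qg3⟩ := h5 N p q S _ _ hN hS (hup g 0 lg)
  obtain ⟨qe1, qe2, qe3⟩ := h5 N p q S _ _ hN hS (hup ell 1 le)
  have fc : ContinuousOn f {0}ᶜ := hf.smooth.continuousOn
  have gc : ContinuousOn g {0}ᶜ := hg.smooth.continuousOn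
  -- the radial integrals
  have key : ∀ (ψ : (Fin N → ℂ) → ℝ) (θ : ℝ → ℝ), ContinuousOn ψ {0}ᶜ → Continuous θ →
      Integrable θ → (∀ (r : ℝ) (z : Fin N → ℂ), 0 < r → z ≠ 0 →
        ψ ((r : ℂ) • z) = (r ^ (2 * N))⁻¹ * ψ z) →
      Integrable (fun z => ψ z * θ (ell z)) ∧ ∫ z, ψ z * θ (ell z) = (∫ t, θ t) * Iint ψ := by
    intro ψ θ hψ hθ iθ' hh
    have h10 := h4 N ψ (fun _ => 0) 1 θ hN0 one_pos
      (measurable_of_continuousOn_compl_singleton 0 hψ) measurable_const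
      (int_ann ψ hψ hN0) hh (fun r z _ _ => rfl) hθ.measurable iθ'
    simpa using h10
  have hom : ∀ (r : ℝ), 0 < r → ‖(r : ℂ)‖ = r := fun r hr => by
    rw [Complex.norm_real, Real.norm_of_nonneg hr.le]
  have hrc : ∀ (r : ℝ), 0 < r → (r : ℂ) ≠ 0 := fun r hr => by exact_mod_cast hr.ne'
  -- the functions in the slots
  have sm : ∀ (w : (Fin N → ℂ) → ℝ), ContDiffOn ℝ ∞ w {0}ᶜ → ∀ i : Fin (q + 1),
      ContDiffOn ℝ ∞ (cx (WW u j w rr i)) {0}ᶜ := by
    intro w hw i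
    apply cx_smooth
    unfold WW
    refine Fin.lastCases ?_ (fun i => ?_) i
    · rw [Fin.snoc_last]
      have := (le.smooth.pow 2).div_const (2 : ℝ)
      exact this
    · rw [Fin.snoc_castSucc]
      by_cases hi : i = j
      · rw [hi, Function.update_self]
        exact hw
      · rw [Function.update_of_ne hi]
        exact (hu i).smooth
  have stokes := h3 (Fin N) p q {0}ᶜ S (cx fun w : Fin N → ℂ => χ (ell w) * f w) (cx g)
    (fun k => cx (WW u j g rr (Equiv.swap 0 j.castSucc k.succ))) isOpen_compl_singleton hcf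
    (a_smooth χ hχ hχ0 h9 f hf.smooth) (a_cpt χ hχ0 f) (a_sub χ hχ0 f)
    (cx_smooth hg.smooth) (fun k => sm g hg.smooth _)
  -- the left side
  have hL1 : ∀ z : Fin N → ℂ, z ≠ 0 →
      (cx fun w : Fin N → ℂ => χ (ell w) * f w) z *
        mixD (S z) (Fin.cons (α := fun _ => Matrix (Fin N) (Fin N) ℂ) (hess (cx g) z)
          (fun k => hess (cx (WW u j g rr (Equiv.swap 0 j.castSucc k.succ))) z)) =
      ((((f z * Q S (Function.update u j g) z) * χ (ell z) : ℝ)) : ℂ) := by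
    intro z hz
    have e1 : mixD (S z) (Fin.cons (α := fun _ => Matrix (Fin N) (Fin N) ℂ) (hess (cx g) z)
          (fun k => hess (cx (WW u j g rr (Equiv.swap 0 j.castSucc k.succ))) z)) =
        mixD (S z) (fun i => hess (cx (WW u j g rr i)) z) := by
      have := slot h2 (S z) (fun i => hess (cx (WW u j g rr i)) z) j
      rw [WW_j] at this
      exact this
    rw [e1, snoc_eq, hess_rr h7 h9 hz, (h1 (Fin N) p (q + 1) (S z) (S z) _ (Fin.last q) _ _ 1).1,
      (h1 (Fin N) p (q + 1) (S z) (S z) _ (Fin.last q) _ 0 _).2.1, ← snoc_eq' u j g (hessR ell z),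
      ← snoc_eq' u j g (out _ _), rad_eq h9 hz, ← qg3 z hz]
    have e2 : mixD (S z) (Fin.snoc (α := fun _ => Matrix (Fin N) (Fin N) ℂ)
        (fun i => hessR (Function.update u j g i) z) (hessR ell z)) = 0 := by
      apply hA7 (Fin N) p (q + 1) (S z) _ z hz
      · intro I J l
        exact hS.basicL z hz I J l
      · intro i
        refine Fin.lastCases ?_ (fun i => ?_) i
        · rw [Fin.snoc_last]
          exact (hL N 1 ell le z hz).2.2.1
        · rw [Fin.snoc_castSucc]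
          exact (hL N _ _ (hup g 0 lg i) z hz).2.2.1
    rw [e2]
    simp only [cx]
    push_cast
    ring
  -- the right side
  have hR1 : ∀ z : Fin N → ℂ, z ≠ 0 →
      cx g z *
        mixD (S z) (Fin.cons (α := fun _ => Matrix (Fin N) (Fin N) ℂ)
          (hess (cx fun w : Fin N → ℂ => χ (ell w) * f w) z)
          (fun k => hess (cx (WW u j g rr (Equiv.swap 0 j.castSucc k.succ))) z)) =
      ((((g z * Q S (Function.update u j f) z) * χ (ell z) +
        (g z * f z * Q S (Function.update u j ell) z) *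
          (deriv χ (ell z) + ell z * deriv (deriv χ) (ell z)) : ℝ)) : ℂ) := by
    intro z hz
    obtain ⟨a, ha⟩ : ∃ a : (Fin N → ℂ) → ℝ, a = fun w : Fin N → ℂ => χ (ell w) * f w := ⟨_, rfl⟩
    have e0 : (fun k : Fin q => hess (cx (WW u j g rr (Equiv.swap 0 j.castSucc k.succ))) z) =
        fun k : Fin q => hess (cx (WW u j a rr (Equiv.swap 0 j.castSucc k.succ))) z := by
      funext k
      rw [WW_ne u j g a rr _ (swap_ne j k)]
    have e1 : mixD (S z) (Fin.cons (α := fun _ => Matrix (Fin N) (Fin N) ℂ) (hess (cx a) z)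
          (fun k => hess (cx (WW u j g rr (Equiv.swap 0 j.castSucc k.succ))) z)) =
        mixD (S z) (fun i => hess (cx (WW u j a rr i)) z) := by
      rw [e0]
      have := slot h2 (S z) (fun i => hess (cx (WW u j a rr i)) z) j
      rw [WW_j] at this
      exact this
    have hHa := hess_a h7 h9 χ hχ hf.smooth hz
    rw [← ha] at hHa ⊢
    rw [e1, snoc_eq, hess_rr h7 h9 hz, hHa]
    have f1 := hL N 0 f lf z hz
    have l1 := hL N 1 ell le z hz
    rw [h16 (Fin N) p (q + 1) (S z) _ j.castSucc (Fin.last q) (hessR f z) (hessR ell z) z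
      (gd (cx ell) z) (gdb (cx ell) z) (gd (cx f) z) (gdb (cx f) z) ((f z : ℝ) : ℂ)
      ((χ (ell z) : ℝ) : ℂ) ((deriv χ (ell z) : ℝ) : ℂ) ((deriv (deriv χ) (ell z) : ℝ) : ℂ)
      ((ell z : ℝ) : ℂ) (Fin.castSucc_lt_last j).ne hz (hS.basicL z hz) (hS.basicR z hz) ?_
      f1.2.2.1 f1.2.2.2.1 l1.2.2.1 l1.2.2.2.1 ?_ ?_, ← snoc_eq', ← snoc_eq', rad_eq h9 hz,
      ← qf3 z hz, ← qe3 z hz]
    · simp only [cx]
      push_cast
      ring
    · intro i
      refine Fin.lastCases ?_ (fun i => ?_) i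
      · intro _ h
        exact absurd rfl h
      · intro hi _
        rw [Fin.snoc_castSucc]
        exact ⟨(hL N _ _ (hu i) z hz).2.2.1, (hL N _ _ (hu i) z hz).2.2.2.1⟩
    · have := f1.1
      simpa [gd] using this
    · have := f1.2.1
      simpa [gdb] using this
  -- homogeneity
  have homF : ∀ (w : (Fin N → ℂ) → ℝ) (v : (Fin N → ℂ) → ℝ), (∀ (l : ℂ) (z : Fin N → ℂ),
      l ≠ 0 → z ≠ 0 → w (l • z) = w z) → (∀ (l : ℂ) (z : Fin N → ℂ), l ≠ 0 → z ≠ 0 →
      v (l • z) = (‖l‖ ^ (2 * N))⁻¹ * v z) → ∀ (r : ℝ) (z : Fin N → ℂ), 0 < r → z ≠ 0 →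
      w ((r : ℂ) • z) * v ((r : ℂ) • z) = (r ^ (2 * N))⁻¹ * (w z * v z) := by
    intro w v hw hv r z hr hz
    rw [hw _ z (hrc r hr) hz, hv _ z (hrc r hr) hz, hom r hr]
    ring
  obtain ⟨-, k1⟩ := key (fun z => f z * Q S (Function.update u j g) z) χ (fc.mul qg1)
    hχ.continuous iχ (homF f _ hf.hom qg2)
  obtain ⟨k2, k3⟩ := key (fun z => g z * Q S (Function.update u j f) z) χ (gc.mul qf1)
    hχ.continuous iχ (homF g _ hg.hom qf2)
  obtain ⟨k4, k5⟩ := key (fun z => g z * f z * Q S (Function.update u j ell) z)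
    (fun t => deriv χ t + t * deriv (deriv χ) t) ((gc.mul fc).mul qe1) cθ iθ
    (homF (fun z => g z * f z) _ (fun l z hl hz => by rw [hg.hom l z hl hz, hf.hom l z hl hz])
      qe2)
  rw [integral_congr_ae (hae.mono fun z hz => hL1 z hz),
    integral_congr_ae (hae.mono fun z hz => hR1 z hz), integral_complex_ofReal,
    integral_complex_ofReal] at stokes
  have h20 := Complex.ofReal_injective stokes
  rw [k1, integral_add k2 k4, k3, k5, hχ1, iθ0] at h20
  unfold pair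
  linarith

end Pool.Agent.H35.EQ
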