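import Pool.Agent.H92.EQ.TL
import Pool.Agent.H35.EQ.S6

/-!
# Row LE of the board on equidistribution, first part: algebra
-/

namespace Pool.Agent.H35.EQ

open Pool.Agent.H92.EQ
open scoped BigOperators ComplexConjugate ContDiff ComplexOrder
open MeasureTheory

/-! ### The norm -/

section
variable {N : ℕ}

theorem nrm_nonneg (z : Fin N → ℂ) : 0 ≤ nrm z := Real.sqrt_nonneg _

theorem nrm_sq (z : Fin N → ℂ) : nrm z ^ 2 = nsq z := Real.sq_sqrt (nsq_nonneg z)

theorem nrm_pos {z : Fin N → ℂ} (hz : z ≠ 0) : 0 < nrm z := Real.sqrt_pos.2 (nsq_pos hz)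

theorem le_nrm (z : Fin N → ℂ) (i : Fin N) : ‖z i‖ ≤ nrm z := by
  apply Real.le_sqrt_of_sq_le
  exact Finset.single_le_sum (f := fun i => ‖z i‖ ^ 2) (fun _ _ => sq_nonneg _)
    (Finset.mem_univ i)

theorem nrm_le (z : Fin N → ℂ) : nrm z ≤ ∑ i, ‖z i‖ := by
  apply Real.sqrt_le_iff.2
  refine ⟨Finset.sum_nonneg fun _ _ => norm_nonneg _, ?_⟩
  unfold nsq
  rw [sq, Finset.sum_mul]
  refine Finset.sum_le_sum fun i _ => ?_
  rw [sq]
  exact mul_le_mul_of_nonneg_left (Finset.single_le_sum (f := fun i => ‖z i‖)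
    (fun _ _ => norm_nonneg _) (Finset.mem_univ i)) (norm_nonneg _)

theorem nrm_smul (l : ℂ) (z : Fin N → ℂ) : nrm (l • z) = ‖l‖ * nrm z := by
  unfold nrm
  rw [nsq_smul, Real.sqrt_mul (sq_nonneg _), Real.sqrt_sq (norm_nonneg _)]

theorem nrm_cont : Continuous (nrm : (Fin N → ℂ) → ℝ) := nsq_cont.sqrt

theorem nrm_zero_iff {z : Fin N → ℂ} (h : nrm z ≤ 0) : z = 0 := by
  by_contra hz
  exact absurd h (not_le.2 (nrm_pos hz))

/-! ### Slots -/

theorem mixD_smul_slot (h1 : T_A1) {p m : ℕ} (S : (Fin p → Fin N) → (Fin p → Fin N) → ℂ)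
    (H : Fin m → Matrix (Fin N) (Fin N) ℂ) (j : Fin m) (c : ℂ) (A : Matrix (Fin N) (Fin N) ℂ) :
    mixD S (Function.update H j (c • A)) = c * mixD S (Function.update H j A) :=
  (h1 (Fin N) p m S S H j A 0 c).2.1

theorem snoc_update' {q : ℕ} (H : Fin q → Matrix (Fin N) (Fin N) ℂ) (j : Fin q)
    (A R : Matrix (Fin N) (Fin N) ℂ) :
    (Fin.snoc (α := fun _ => Matrix (Fin N) (Fin N) ℂ) (Function.update H j A) R :
      Fin (q + 1) → _) = Function.update (Fin.snoc (α := fun _ => Matrix (Fin N) (Fin N) ℂ) H R)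
        j.castSucc A := by
  funext i
  refine Fin.lastCases ?_ (fun i => ?_) i
  · rw [Fin.snoc_last, Function.update_of_ne (Fin.castSucc_lt_last j).ne', Fin.snoc_last]
  · rw [Fin.snoc_castSucc]
    by_cases h2 : i = j
    · rw [h2, Function.update_self, Function.update_self]
    · have h3 : (i.castSucc : Fin (q + 1)) ≠ j.castSucc := fun h => h2 (Fin.castSucc_injective _ h)
      rw [Function.update_of_ne h3, Fin.snoc_castSucc, Function.update_of_ne h2]

theorem mixD_pow {p q : ℕ} (S : (Fin p → Fin N) → (Fin p → Fin N) → ℂ)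
    (β : ℂ) (L R : Matrix (Fin N) (Fin N) ℂ) :
    mixD S (Fin.snoc (α := fun _ => Matrix (Fin N) (Fin N) ℂ) (fun _ : Fin q => β • L) R) =
      β ^ q * mixD S (Fin.snoc (α := fun _ => Matrix (Fin N) (Fin N) ℂ)
        (fun _ : Fin q => L) R) := by
  unfold mixD
  rw [Finset.mul_sum]
  refine Finset.sum_congr rfl fun e _ => ?_
  rw [Finset.mul_sum]
  refine Finset.sum_congr rfl fun e' _ => ?_
  rw [Fin.prod_univ_castSucc, Fin.prod_univ_castSucc]
  simp only [Fin.snoc_castSucc, Fin.snoc_last, Matrix.smul_apply, smul_eq_mul,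
    Finset.prod_mul_distrib, Finset.prod_const, Finset.card_univ, Fintype.card_fin]
  ring

theorem mixD_empty {p m : ℕ} (h : p + m ≠ N) (S : (Fin p → Fin N) → (Fin p → Fin N) → ℂ)
    (H : Fin m → Matrix (Fin N) (Fin N) ℂ) : mixD S H = 0 := by
  unfold mixD
  have : IsEmpty ((Fin p ⊕ Fin m) ≃ Fin N) := by
    refine ⟨fun e => h ?_⟩
    have := Fintype.card_congr e
    simpa using this
  simp

/-! ### Positive matrices -/

theorem rad_psd (z : Fin N → ℂ) : (Rad z).PosSemidef := by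
  have h := Matrix.posSemidef_vecMulVec_self_star (n := Fin N) (R := ℂ)
    (fun a => conj (z a) / (2 * (nsq z : ℂ)))
  have e : Rad z = Matrix.vecMulVec (fun a => conj (z a) / (2 * (nsq z : ℂ)))
      (star fun a => conj (z a) / (2 * (nsq z : ℂ))) := by
    ext a b
    simp only [Rad, Matrix.vecMulVec_apply, Pi.star_apply, RCLike.star_def, map_div₀, map_mul,
      Complex.conj_conj, Complex.conj_ofReal, map_ofNat]
    rw [div_mul_div_comm]
    congr 1
    ring
  rw [e]
  exact h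

theorem dom_mono {H B B' : Matrix (Fin N) (Fin N) ℂ} (h : Dom H B) (hB : (B' - B).PosSemidef) :
    Dom H B' := by
  obtain ⟨h1, h2, h3, h4⟩ := h
  refine ⟨?_, ?_, ?_, ?_⟩
  · have := hB.add h1
    rwa [sub_add_sub_cancel] at this
  · have := hB.add h2
    rwa [← add_assoc, sub_add_cancel] at this
  · have := hB.add h3
    rwa [sub_add_sub_cancel] at this
  · have := hB.add h4
    rwa [← add_assoc, sub_add_cancel] at this

theorem psd_smul_sub {L : Matrix (Fin N) (Fin N) ℂ} (hL : L.PosSemidef) {b b' : ℝ}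
    (h : b ≤ b') : (((b' : ℝ) : ℂ) • L - ((b : ℝ) : ℂ) • L).PosSemidef := by
  rw [← sub_smul, ← Complex.ofReal_sub]
  exact hL.smul (by exact_mod_cast (sub_nonneg.2 h))

theorem pot_ell (h9 : T_W9) : Pot (ell : (Fin N → ℂ) → ℝ) :=
  ⟨(h9 (Fin N)).1, ell_smul, fun z hz => ((h9 (Fin N)).2 z hz).2.2.2.1⟩

/-! ### The pointwise estimate -/

theorem ptw (h1 : T_A1) (h13 : T_A13b) (hLC : T_LC) (h9 : T_W9) (hL : T_L2)
    (h5 : T_S5) {p q : ℕ} (hN : p + q + 1 = N)
    (S' : Form (Fin N) p) (hS' : ProjForm S') (κ : (Fin N → ℂ) → ℝ) (hκ : Hom0 κ)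
    (u : Fin q → (Fin N → ℂ) → ℝ) (hu : ∀ j, Pot (u j)) (x ξ : Fin N → ℂ) (hx : x ≠ 0)
    (M T C C' C₄ : ℝ) (hM : 1 ≤ M) (hT : 0 ≤ T) (hC : 0 ≤ C) (hC' : 0 ≤ C')
    (hξ : nrm ξ ≤ nrm x * T) (hw : ∀ a, ‖wd a (cx κ) x‖ ≤ M / nrm x)
    (hH : ∀ j i b, ‖hessR (u j) x i b‖ ≤ C' / nsq x)
    (hD : ∀ j, (((C : ℝ) : ℂ) • hessR ell x - hessR (u j) x).PosSemidef)
    (hQ : Q S' u x ≤ C₄ * Q S' (fun _ : Fin q => ell) x) (hQ0 : 0 ≤ Q S' u x)
    (hQe : 0 ≤ Q S' (fun _ : Fin q => ell) x) (Ψ : ℂ)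
    (hΨ : Ψ = - (∑ i, ξ i * wd i (cx κ) x) * mixD (S' x)
        (Fin.snoc (α := fun _ => Matrix (Fin N) (Fin N) ℂ) (fun j => hessR (u j) x) (Rad x)) +
      ∑ j, mixD (S' x) (Fin.snoc (α := fun _ => Matrix (Fin N) (Fin N) ℂ)
        (Function.update (fun j => hessR (u j) x) j
          (out (gd (cx κ) x) (fun b => ∑ i, ξ i * hessR (u j) x i b))) (Rad x))) :
    ‖Ψ‖ ≤ T * ((N * C₄ + q * 6 ^ q * (C + 2 * N ^ 3 * C') ^ q) * M ^ (q + 1)) *
      Q S' (fun _ : Fin q => ell) x := by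
  have hx0 := nrm_pos hx
  have hn0 := nsq_pos hx
  have hξi : ∀ i, ‖ξ i‖ ≤ nrm x * T := fun i => (le_nrm ξ i).trans hξ
  obtain ⟨Qe, hQeq⟩ : ∃ Qe, Qe = Q S' (fun _ : Fin q => ell) x := ⟨_, rfl⟩
  rw [← hQeq] at hQ hQe ⊢
  have hMq : 1 ≤ M ^ q := one_le_pow₀ hM
  -- the first term
  have t1 : ‖- (∑ i, ξ i * wd i (cx κ) x) * mixD (S' x)
        (Fin.snoc (α := fun _ => Matrix (Fin N) (Fin N) ℂ) (fun j => hessR (u j) x) (Rad x))‖ ≤
      T * (N * C₄ * M ^ (q + 1)) * Qe := by
    obtain ⟨-, -, e1⟩ := h5 N p q S' u (fun _ => 1) hN hS'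
      (fun j => ⟨(hu j).smooth, fun l z hl hz => by rw [(hu j).loghom l z hl hz, one_mul]⟩)
    rw [← e1 x hx, norm_mul, norm_neg, Complex.norm_real, Real.norm_of_nonneg hQ0]
    have e2 : ‖∑ i, ξ i * wd i (cx κ) x‖ ≤ N * (T * M) := by
      refine (norm_sum_le _ _).trans ?_
      have e3 : ∀ i ∈ (Finset.univ : Finset (Fin N)), ‖ξ i * wd i (cx κ) x‖ ≤ T * M := by
        intro i _
        rw [norm_mul]
        calc ‖ξ i‖ * ‖wd i (cx κ) x‖ ≤ (nrm x * T) * (M / nrm x) :=
              mul_le_mul (hξi i) (hw i) (norm_nonneg _) (by positivity)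
          _ = T * M := by field_simp
      refine (Finset.sum_le_sum e3).trans (le_of_eq ?_)
      rw [Finset.sum_const, Finset.card_univ, Fintype.card_fin, nsmul_eq_mul]
    have e4 : 0 ≤ C₄ * Qe := hQ0.trans hQ
    calc ‖∑ i, ξ i * wd i (cx κ) x‖ * Q S' u x ≤ (N * (T * M)) * (C₄ * Qe) :=
          mul_le_mul e2 hQ hQ0 (by positivity)
      _ = (N * T * (C₄ * Qe)) * M := by ring
      _ ≤ (N * T * (C₄ * Qe)) * M ^ (q + 1) := by
          refine mul_le_mul_of_nonneg_left ?_ (by positivity)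
          rw [pow_succ]
          nlinarith
      _ = _ := by ring
  -- the other terms
  obtain ⟨β, hβ⟩ : ∃ β, β = (C + 2 * N ^ 3 * C') * M := ⟨_, rfl⟩
  have hβC : C ≤ β := by
    rw [hβ]
    have h0 : 0 ≤ 2 * (N : ℝ) ^ 3 * C' := by positivity
    nlinarith
  have hβR : 2 * N ^ 3 * C' * M ≤ β := by
    rw [hβ]
    have h0 : 0 ≤ C * M := by positivity
    nlinarith
  have hβ0 : 0 ≤ β := hC.trans hβC
  have hLpsd : (hessR ell x).PosSemidef := (pot_ell h9).psh x hx
  have t2 : ∀ j : Fin q, ‖mixD (S' x) (Fin.snoc (α := fun _ => Matrix (Fin N) (Fin N) ℂ)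
        (Function.update (fun j => hessR (u j) x) j
          (out (gd (cx κ) x) (fun b => ∑ i, ξ i * hessR (u j) x i b))) (Rad x))‖ ≤
      T * (6 ^ q * (β ^ q * Qe)) := by
    intro j
    by_cases hT0 : T = 0
    · have hξ0 : ξ = 0 := by
        apply nrm_zero_iff
        rw [hT0, mul_zero] at hξ
        exact hξ
      have e1 : out (gd (cx κ) x) (fun b => ∑ i, ξ i * hessR (u j) x i b) =
          (0 : ℂ) • (0 : Matrix (Fin N) (Fin N) ℂ) := by
        ext a b
        simp [out, hξ0]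
      rw [e1, snoc_update', mixD_smul_slot h1, zero_mul, norm_zero, hT0, zero_mul]
    · have hT1 : 0 < T := lt_of_le_of_ne hT (Ne.symm hT0)
      have hTc : (T : ℂ) ≠ 0 := by exact_mod_cast hT0
      obtain ⟨b', hb'⟩ : ∃ b' : Fin N → ℂ, b' = fun b => (∑ i, ξ i * hessR (u j) x i b) / T :=
        ⟨_, rfl⟩
      have e1 : out (gd (cx κ) x) (fun b => ∑ i, ξ i * hessR (u j) x i b) =
          (T : ℂ) • out (gd (cx κ) x) b' := by
        ext a b
        simp only [out, hb', Matrix.smul_apply, smul_eq_mul]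
        field_simp
      rw [e1, snoc_update', mixD_smul_slot h1, ← snoc_update', norm_mul, Complex.norm_real,
        Real.norm_of_nonneg hT]
      refine mul_le_mul_of_nonneg_left ?_ hT
      have f1 := hL N 0 κ (LH_hom0 hκ) x hx
      have f2 := hL N 1 (u j) ⟨(hu j).smooth, fun l z hl hz => by
        rw [(hu j).loghom l z hl hz, one_mul]⟩ x hx
      have g1 : ∑ i, x i * gd (cx κ) x i = 0 := by
        have := f1.1
        simpa [gd] using this
      have g2 : ∑ i, conj (x i) * b' i = 0 := by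
        rw [hb']
        have e5 : ∀ b : Fin N, conj (x b) * ((∑ i, ξ i * hessR (u j) x i b) / T) =
            ∑ i, (ξ i / T) * (conj (x b) * hessR (u j) x i b) := by
          intro b
          rw [Finset.sum_div, Finset.mul_sum]
          refine Finset.sum_congr rfl fun i _ => ?_
          ring
        rw [Finset.sum_congr rfl fun b _ => e5 b, Finset.sum_comm]
        refine Finset.sum_eq_zero fun i _ => ?_
        rw [← Finset.mul_sum, f2.2.2.2.1 i, mul_zero]
      obtain ⟨l1, -⟩ := hLC N x (gd (cx κ) x) b' hx g1 g2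
      have n1 : nrm (gd (cx κ) x) ≤ N * (M / nrm x) := by
        refine (nrm_le _).trans ((Finset.sum_le_sum fun i _ => hw i).trans (le_of_eq ?_))
        rw [Finset.sum_const, Finset.card_univ, Fintype.card_fin, nsmul_eq_mul]
      have n2 : nrm b' ≤ N * (N * (C' / nrm x)) := by
        refine (nrm_le _).trans ?_
        have e6 : ∀ b ∈ (Finset.univ : Finset (Fin N)), ‖b' b‖ ≤ N * (C' / nrm x) := by
          intro b _
          rw [hb', norm_div, Complex.norm_real, Real.norm_of_nonneg hT, div_le_iff₀ hT1]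
          refine (norm_sum_le _ _).trans ?_
          have e7 : ∀ i ∈ (Finset.univ : Finset (Fin N)), ‖ξ i * hessR (u j) x i b‖ ≤
              C' / nrm x * T := by
            intro i _
            rw [norm_mul]
            calc ‖ξ i‖ * ‖hessR (u j) x i b‖ ≤ (nrm x * T) * (C' / nsq x) :=
                  mul_le_mul (hξi i) (hH j i b) (norm_nonneg _) (by positivity)
              _ = C' / nrm x * T := by
                  rw [← nrm_sq]
                  field_simp
          refine (Finset.sum_le_sum e7).trans (le_of_eq ?_)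
          rw [Finset.sum_const, Finset.card_univ, Fintype.card_fin, nsmul_eq_mul]
          ring
        refine (Finset.sum_le_sum e6).trans (le_of_eq ?_)
        rw [Finset.sum_const, Finset.card_univ, Fintype.card_fin, nsmul_eq_mul]
      have n3 : 2 * nsq x * nrm (gd (cx κ) x) * nrm b' ≤ β := by
        refine le_trans ?_ hβR
        calc 2 * nsq x * nrm (gd (cx κ) x) * nrm b' ≤
              2 * nsq x * (N * (M / nrm x)) * (N * (N * (C' / nrm x))) :=
              mul_le_mul (mul_le_mul_of_nonneg_left n1 (by positivity)) n2 (nrm_nonneg _)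
                (by positivity)
          _ = 2 * N ^ 3 * C' * M := by
              rw [← nrm_sq]
              field_simp
      have d1 : Dom (out (gd (cx κ) x) b') (((β : ℝ) : ℂ) • hessR ell x) := by
        refine dom_mono l1 ?_
        have := psd_smul_sub hLpsd n3
        exact this
      have d2 : ∀ i, Dom (hessR (u i) x) (((β : ℝ) : ℂ) • hessR ell x) := by
        intro i
        obtain ⟨-, l2⟩ := hLC N x (gd (cx κ) x) b' hx g1 g2
        exact dom_mono (l2 (u i) (hu i) C (hD i)) (psd_smul_sub hLpsd hβC)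
      have hdom : ∀ i, Dom (Function.update (fun j => hessR (u j) x) j
          (out (gd (cx κ) x) b') i) (((β : ℝ) : ℂ) • hessR ell x) := by
        intro i
        by_cases hi : i = j
        · rw [hi, Function.update_self]
          exact d1
        · rw [Function.update_of_ne hi]
          exact d2 i
      have h20 := h13 (Fin N) p q (S' x) _ (((β : ℝ) : ℂ) • hessR ell x) (Rad x)
        (hS'.cp.psd x hx) (rad_psd x) hdom
      refine h20.trans ?_
      rw [mixD_pow, ← Complex.ofReal_pow, Complex.re_ofReal_mul, hQeq]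
      rfl
  rw [hΨ]
  refine (norm_add_le _ _).trans ((add_le_add t1 ((norm_sum_le _ _).trans
    (Finset.sum_le_sum fun j _ => t2 j))).trans ?_)
  rw [Finset.sum_const, Finset.card_univ, Fintype.card_fin, nsmul_eq_mul, hβ, mul_pow]
  have h0 : 0 ≤ (C + 2 * N ^ 3 * C') ^ q := by positivity
  have h2 : M ^ q ≤ M ^ (q + 1) := pow_le_pow_right₀ hM (by omega)
  have h3 : (q : ℝ) * (T * (6 ^ q * ((C + 2 * N ^ 3 * C') ^ q * M ^ q * Qe))) ≤
      (q : ℝ) * (T * (6 ^ q * ((C + 2 * N ^ 3 * C') ^ q * M ^ (q + 1) * Qe))) := by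
    gcongr
  refine (add_le_add le_rfl h3).trans (le_of_eq ?_)
  ring

end

end Pool.Agent.H35.EQ
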