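import Pool.Agent.H35.EQ.LEa

/-!
# Row LE of the board on equidistribution, second part: the block
-/

namespace Pool.Agent.H35.EQ

open Pool.Agent.H92.EQ
open scoped BigOperators ComplexConjugate ContDiff ComplexOrder
open MeasureTheory

section
variable {N : ℕ}

/-- the family of maps `(1 + t (A - 1)) Φ` -/
noncomputable def GG (A : Matrix (Fin N) (Fin N) ℂ) (Φ : Fin N → MvPolynomial (Fin N) ℂ) :
    Fin N → MvPolynomial (Fin (N + 1)) ℂ := fun i =>
  MvPolynomial.rename Fin.succ (Φ i) + MvPolynomial.X 0 *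
    ∑ j, MvPolynomial.C ((A - 1) i j) * MvPolynomial.rename Fin.succ (Φ j)

/-- the matrix `1 + t (A - 1)` -/
def BB (A : Matrix (Fin N) (Fin N) ℂ) (t : ℂ) : Matrix (Fin N) (Fin N) ℂ := 1 + t • (A - 1)

theorem eval_ren (P : MvPolynomial (Fin N) ℂ) (z : Fin (N + 1) → ℂ) :
    MvPolynomial.eval z (MvPolynomial.rename Fin.succ P) = MvPolynomial.eval (tl z) P := by
  rw [MvPolynomial.eval_rename]
  rfl

theorem ev_GG (A : Matrix (Fin N) (Fin N) ℂ) (Φ : Fin N → MvPolynomial (Fin N) ℂ)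
    (z : Fin (N + 1) → ℂ) : ev (GG A Φ) z = (BB A (z 0)).mulVec (ev Φ (tl z)) := by
  funext i
  simp only [ev, GG, BB, map_add, map_mul, MvPolynomial.eval_X, map_sum, MvPolynomial.eval_C,
    eval_ren, Matrix.mulVec, dotProduct, Matrix.add_apply, Matrix.smul_apply, smul_eq_mul,
    add_mul, Finset.sum_add_distrib, Finset.mul_sum]
  refine congrArg₂ (· + ·) ?_ ?_
  · simp [Matrix.one_apply]
  · refine Finset.sum_congr rfl fun j _ => ?_
    ring

theorem jac_GG_succ (A : Matrix (Fin N) (Fin N) ℂ) (Φ : Fin N → MvPolynomial (Fin N) ℂ)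
    (z : Fin (N + 1) → ℂ) (i k : Fin N) :
    jac (GG A Φ) z i k.succ = (BB A (z 0) * jac Φ (tl z)) i k := by
  have h1 : ∀ j : Fin N, MvPolynomial.pderiv k.succ (MvPolynomial.rename Fin.succ (Φ j)) =
      MvPolynomial.rename Fin.succ (MvPolynomial.pderiv k (Φ j)) := fun j =>
    MvPolynomial.pderiv_rename (Fin.succ_injective N) k (Φ j)
  have h2 : MvPolynomial.pderiv k.succ (MvPolynomial.X (R := ℂ) (0 : Fin (N + 1))) = 0 :=
    MvPolynomial.pderiv_X_of_ne (Fin.succ_ne_zero k).symm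
  simp only [jac, GG, BB, map_add, Derivation.leibniz, map_sum, h1, h2, smul_eq_mul, mul_zero,
    MvPolynomial.pderiv_C, add_zero, map_mul, MvPolynomial.eval_X, MvPolynomial.eval_C, eval_ren,
    Matrix.mul_apply, Matrix.add_apply, Matrix.smul_apply, add_mul, Finset.sum_add_distrib,
    Finset.mul_sum]
  refine congrArg₂ (· + ·) ?_ ?_
  · simp [Matrix.one_apply]
  · refine Finset.sum_congr rfl fun j _ => ?_
    ring

theorem jac_GG_zero (A : Matrix (Fin N) (Fin N) ℂ) (Φ : Fin N → MvPolynomial (Fin N) ℂ)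
    (z : Fin (N + 1) → ℂ) (i : Fin N) :
    jac (GG A Φ) z i 0 = (A - 1).mulVec (ev Φ (tl z)) i := by
  have h1 : ∀ j : Fin N, MvPolynomial.pderiv (0 : Fin (N + 1))
      (MvPolynomial.rename Fin.succ (Φ j)) = 0 := by
    intro j
    apply MvPolynomial.pderiv_eq_zero_of_notMem_vars
    intro h
    have h3 := MvPolynomial.vars_rename Fin.succ (Φ j) h
    rw [Finset.mem_image] at h3
    obtain ⟨k, -, hk⟩ := h3
    exact Fin.succ_ne_zero k hk
  have h2 : MvPolynomial.pderiv (0 : Fin (N + 1)) (MvPolynomial.X (R := ℂ) (0 : Fin (N + 1))) =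
      1 := MvPolynomial.pderiv_X_self 0
  simp only [jac, GG, map_add, Derivation.leibniz, map_sum, h1, h2, smul_eq_mul, mul_zero,
    MvPolynomial.pderiv_C, add_zero, map_mul, MvPolynomial.eval_C, eval_ren, zero_add, mul_one,
    Finset.sum_const_zero, Matrix.mulVec, dotProduct, ev]

/-- the vector killed by the pull-back -/
theorem killed (A : Matrix (Fin N) (Fin N) ℂ) (Φ : Fin N → MvPolynomial (Fin N) ℂ)
    {p : ℕ} (S : Form (Fin N) p) (t : ℂ) (x ξ : Fin N → ℂ)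
    (h : (BB A t * jac Φ x).mulVec ξ = (A - 1).mulVec (ev Φ x)) :
    KilL (ct 1 (-ξ)) (pull (GG A Φ) S (ct t x)) := by
  have hz0 : (ct t x) 0 = t := rfl
  have htl : tl (ct t x) = x := rfl
  have hj : ∀ i : Fin N, ∑ a, ct 1 (-ξ) a * jac (GG A Φ) (ct t x) i a = 0 := by
    intro i
    rw [Fin.sum_univ_succ, jac_GG_zero, htl]
    have e1 : ∀ k : Fin N, ct 1 (-ξ) k.succ * jac (GG A Φ) (ct t x) i k.succ =
        - ((BB A t * jac Φ x) i k * ξ k) := by
      intro k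
      rw [jac_GG_succ, hz0, htl]
      have : ct 1 (-ξ) k.succ = - ξ k := rfl
      rw [this]
      ring
    rw [Finset.sum_congr rfl fun k _ => e1 k, Finset.sum_neg_distrib]
    have e2 : ∑ k, (BB A t * jac Φ x) i k * ξ k = (A - 1).mulVec (ev Φ x) i := by
      rw [← h]
      rfl
    rw [e2]
    have : ct (N := N) 1 (-ξ) 0 = 1 := rfl
    rw [this]
    ring
  intro I J j
  unfold pull
  simp only [Finset.mul_sum]
  rw [Finset.sum_comm]
  refine Finset.sum_eq_zero fun I' _ => ?_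
  rw [Finset.sum_comm]
  refine Finset.sum_eq_zero fun J' _ => ?_
  have e3 : ∀ a : Fin (N + 1), ∏ l, jac (GG A Φ) (ct t x) (I' l) (Function.update I j a l) =
      jac (GG A Φ) (ct t x) (I' j) a *
        ∏ l ∈ Finset.univ.erase j, jac (GG A Φ) (ct t x) (I' l) (I l) := by
    intro a
    rw [← Finset.mul_prod_erase Finset.univ _ (Finset.mem_univ j), Function.update_self]
    refine congrArg₂ (· * ·) rfl ?_
    refine Finset.prod_congr rfl fun l hl => ?_
    rw [Function.update_of_ne (Finset.ne_of_mem_erase hl)]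
  have e4 : ∀ a ∈ (Finset.univ : Finset (Fin (N + 1))), ct 1 (-ξ) a *
      (S (ev (GG A Φ) (ct t x)) I' J' *
        (∏ l, jac (GG A Φ) (ct t x) (I' l) (Function.update I j a l)) *
        ∏ l, conj (jac (GG A Φ) (ct t x) (J' l) (J l))) =
      (ct 1 (-ξ) a * jac (GG A Φ) (ct t x) (I' j) a) *
      (S (ev (GG A Φ) (ct t x)) I' J' *
        (∏ l ∈ Finset.univ.erase j, jac (GG A Φ) (ct t x) (I' l) (I l)) *
        ∏ l, conj (jac (GG A Φ) (ct t x) (J' l) (J l))) := by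
    intro a _
    rw [e3 a]
    ring
  rw [Finset.sum_congr rfl e4, ← Finset.sum_mul, hj, zero_mul]

/-- the restriction of the pull-back -/
theorem res_GG (h8 : T_D8) (h13 : T_D13) (A : Matrix (Fin N) (Fin N) ℂ)
    (Φ : Fin N → MvPolynomial (Fin N) ℂ) {p : ℕ} (S : Form (Fin N) p) (t : ℂ) :
    res (pull (GG A Φ) S) t = pull (cmp (lin (BB A t)) Φ) S := by
  funext x I J
  obtain ⟨e1, e2, -⟩ := h8 N p (lin (BB A t)) Φ S x
  obtain ⟨e3, -⟩ := h13 N (BB A t) 1 (ev Φ x)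
  obtain ⟨-, e4, -⟩ := h13 N (BB A t) 1 (ev Φ x)
  unfold res pull
  rw [e1, e2, e3, e4, ev_GG]
  have hz0 : (ct t x) 0 = t := rfl
  have htl : tl (ct t x) = x := rfl
  simp only [jac_GG_succ, hz0, htl]

theorem BB_one (A : Matrix (Fin N) (Fin N) ℂ) : BB A 1 = A := by
  unfold BB
  rw [one_smul]
  abel

theorem BB_zero (A : Matrix (Fin N) (Fin N) ℂ) : BB A 0 = 1 := by
  unfold BB
  rw [zero_smul, add_zero]

theorem pull_one (h8 : T_D8) (h13 : T_D13) (Φ : Fin N → MvPolynomial (Fin N) ℂ) {p : ℕ}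
    (S : Form (Fin N) p) : pull (cmp (lin 1) Φ) S = pull Φ S := by
  funext x I J
  obtain ⟨e1, e2, -⟩ := h8 N p (lin 1) Φ S x
  obtain ⟨e3, e4, -⟩ := h13 N 1 1 (ev Φ x)
  unfold pull
  rw [e1, e2, e3, e4, Matrix.one_mulVec, Matrix.one_mul]

/-- where the function vanishes, so does the density -/
theorem Psi_zero (h1 : T_A1) {p q : ℕ} (S : Form (Fin (N + 1)) p) (κ : (Fin N → ℂ) → ℝ)
    (u : Fin q → (Fin N → ℂ) → ℝ) (t : ℂ) (x : Fin N → ℂ) (h : ∀ᶠ y in nhds x, κ y = 0) :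
    PsiT S κ u (ct t x) = 0 := by
  have htl : Filter.Tendsto (tl : (Fin (N + 1) → ℂ) → Fin N → ℂ) (nhds (ct t x)) (nhds x) := by
    have hc : Continuous (tl : (Fin (N + 1) → ℂ) → Fin N → ℂ) := by
      unfold tl
      fun_prop
    exact hc.tendsto (ct t x)
  have h2 : (cx fun z : Fin (N + 1) → ℂ => κ (tl z)) =ᶠ[nhds (ct t x)] fun _ => (0 : ℂ) := by
    filter_upwards [htl.eventually h] with z hz
    simp [cx, hz]
  have h3 : ∀ a, gd (cx fun z : Fin (N + 1) → ℂ => κ (tl z)) (ct t x) a = 0 := by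
    intro a
    unfold gd wd
    rw [h2.fderiv_eq]
    simp
  unfold PsiT
  have e : out (gd (cx fun z => κ (tl z)) (ct t x)) (Pi.single 0 1) =
      (0 : ℂ) • (0 : Matrix (Fin (N + 1)) (Fin (N + 1)) ℂ) := by
    ext a b
    simp [out, h3]
  rw [e]
  have e2 : ∀ R : Fin (q + 1) → Matrix (Fin (N + 1)) (Fin (N + 1)) ℂ,
      (Fin.cons (α := fun _ => Matrix (Fin (N + 1)) (Fin (N + 1)) ℂ) ((0 : ℂ) •
        (0 : Matrix (Fin (N + 1)) (Fin (N + 1)) ℂ)) R : Fin (q + 1 + 1) → _) =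
      Function.update (Fin.cons (α := fun _ => Matrix (Fin (N + 1)) (Fin (N + 1)) ℂ) 0 R) 0
        ((0 : ℂ) • (0 : Matrix (Fin (N + 1)) (Fin (N + 1)) ℂ)) := by
    intro R
    rw [Fin.update_cons_zero]
  rw [e2, mixD_smul_slot h1, zero_mul]

end

end Pool.Agent.H35.EQ
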