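import Pool.Agent.H71.EQ.Targets

/-!
The local density (board eqr, row LOC).
-/

set_option autoImplicit false

open Pool.Agent.H38.AE.Statement Pool.Agent.H38.AT
open Pool.Agent.H71.EQ

namespace Pool.Agent.H35.EQ

theorem dvdq (p j : ℕ) : p ∣ p ^ (j + 2) := dvd_pow_self p (by omega)

/-- reduction modulo `p` -/
def rho (p j : ℕ) : ZMod (p ^ (j + 2)) →+* ZMod p := ZMod.castHom (dvdq p j) (ZMod p)

/-- the vector with sum `0` in `ZMod (p ^ (j + 2))` -/
def exZ {p j k : ℕ} (v : Fin k → ZMod (p ^ (j + 2))) : Fin (k + 1) → ZMod (p ^ (j + 2)) :=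
  Fin.snoc (α := fun _ => ZMod (p ^ (j + 2))) v (-∑ i, v i)

section

variable {p j : ℕ} [hp : Fact p.Prime]

instance nzq : NeZero (p ^ (j + 2)) := ⟨pow_ne_zero _ hp.out.ne_zero⟩

theorem rho_zero (y : ZMod (p ^ (j + 2))) : rho p j y = 0 ↔ p ∣ y.val := by
  conv_lhs => rw [← ZMod.natCast_zmod_val y]
  rw [map_natCast, ZMod.natCast_eq_zero_iff]

theorem dvd_val (x : ℤ) (a : ℕ) (ha : a ≤ j + 2) :
    (p : ℤ) ^ a ∣ x ↔ p ^ a ∣ (x : ZMod (p ^ (j + 2))).val := by
  have h1 : (((x : ZMod (p ^ (j + 2))).val : ℕ) : ℤ) = x % ((p ^ (j + 2) : ℕ) : ℤ) :=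
    ZMod.val_intCast x
  have h2 : (p : ℤ) ^ a ∣ ((p ^ (j + 2) : ℕ) : ℤ) := by
    push_cast
    exact pow_dvd_pow _ ha
  rw [← Int.natCast_dvd_natCast, h1]
  rw [Nat.cast_pow]
  constructor
  · intro h
    rw [Int.emod_def]
    exact dvd_sub h (h2.mul_right _)
  · intro h
    have h4 : x = x % ((p ^ (j + 2) : ℕ) : ℤ) +
        ((p ^ (j + 2) : ℕ) : ℤ) * (x / ((p ^ (j + 2) : ℕ) : ℤ)) := by
      rw [Int.emod_def]; ring
    rw [h4]
    exact dvd_add h (h2.mul_right _)

theorem dvd_full (y : ZMod (p ^ (j + 2))) : p ^ (j + 2) ∣ y.val ↔ y = 0 := by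
  constructor
  · intro h
    exact (ZMod.val_eq_zero y).1 (Nat.eq_zero_of_dvd_of_lt h (ZMod.val_lt y))
  · rintro rfl
    simp

theorem cast_ext {k : ℕ} (v : Fin k → ZMod (p ^ (j + 2))) (a : Fin (k + 1)) :
    ((ext (fun i => ((v i).val : ℤ)) a : ℤ) : ZMod (p ^ (j + 2))) = exZ v a := by
  refine Fin.lastCases ?_ (fun i => ?_) a
  · simp [ext, exZ]
  · simp [ext, exZ]

theorem loc_iff {k : ℕ} (v : Fin k → ZMod (p ^ (j + 2))) :
    Loc p j (ext fun i => ((v i).val : ℤ)) ↔
      (∀ a b, a ≠ b → ¬ (rho p j (exZ v a) = 0 ∧ rho p j (exZ v b) = 0)) ∧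
      (if j = 0 then ∀ a, exZ v a ≠ 0 else
        ∃ a, p ^ (j + 1) ∣ (exZ v a).val ∧ exZ v a ≠ 0) := by
  have h1 : ∀ a, (p : ℤ) ∣ ext (fun i => ((v i).val : ℤ)) a ↔ rho p j (exZ v a) = 0 := by
    intro a
    have := dvd_val (p := p) (j := j) (ext (fun i => ((v i).val : ℤ)) a) 1 (by omega)
    rw [pow_one, pow_one, cast_ext] at this
    rw [this, rho_zero]
  have h2 : ∀ a, (p : ℤ) ^ (j + 2) ∣ ext (fun i => ((v i).val : ℤ)) a ↔ exZ v a = 0 := by
    intro a
    rw [dvd_val (p := p) (j := j) _ (j + 2) le_rfl, cast_ext, dvd_full]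
  have h3 : ∀ a, (p : ℤ) ^ (j + 1) ∣ ext (fun i => ((v i).val : ℤ)) a ↔
      p ^ (j + 1) ∣ (exZ v a).val := by
    intro a
    rw [dvd_val (p := p) (j := j) _ (j + 1) (by omega), cast_ext]
  unfold Loc
  simp only [h1, h2, h3]
  by_cases hj : j = 0
  · subst hj
    simp only [if_true, zero_add] at h2 ⊢
    simp only [h2, ne_eq]
  · simp only [hj, if_false, ne_eq]

open Classical in
/-- the elements which are exactly divisible by `p ^ (j + 1)` -/
noncomputable def Aset (p j : ℕ) [Fact p.Prime] : Finset (ZMod (p ^ (j + 2))) :=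
  Finset.univ.filter fun y => p ^ (j + 1) ∣ y.val ∧ y ≠ 0

theorem mem_A (y : ZMod (p ^ (j + 2))) : y ∈ Aset p j ↔ p ^ (j + 1) ∣ y.val ∧ y ≠ 0 := by
  simp [Aset]

theorem rho_A {y : ZMod (p ^ (j + 2))} (h : y ∈ Aset p j) : rho p j y = 0 := by
  rw [rho_zero]
  exact (dvd_pow_self p (by omega)).trans ((mem_A y).1 h).1

theorem card_A : (Aset p j).card = p - 1 := by
  have hp0 : 0 < p := hp.out.pos
  have hq : p ^ (j + 2) = p ^ (j + 1) * p := by ring
  have hval : ∀ c : ℕ, c < p → ((p ^ (j + 1) * c : ℕ) : ZMod (p ^ (j + 2))).val =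
      p ^ (j + 1) * c := by
    intro c hc
    apply ZMod.val_natCast_of_lt
    rw [hq]
    exact Nat.mul_lt_mul_of_pos_left hc (pow_pos hp0 _)
  have h1 : (Finset.Ico 1 p).card = p - 1 := by simp
  rw [← h1]
  symm
  apply Finset.card_bij (fun (c : ℕ) _ => ((p ^ (j + 1) * c : ℕ) : ZMod (p ^ (j + 2))))
  · intro c hc
    rw [Finset.mem_Ico] at hc
    rw [mem_A, hval c hc.2]
    refine ⟨dvd_mul_right _ _, fun h0 => ?_⟩
    have h2 := hval c hc.2
    rw [h0, ZMod.val_zero] at h2
    have h3 : 0 < p ^ (j + 1) * c := Nat.mul_pos (pow_pos hp0 _) (by omega)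
    omega
  · intro c hc d hd h
    rw [Finset.mem_Ico] at hc hd
    have h2 := congrArg ZMod.val h
    rw [hval c hc.2, hval d hd.2] at h2
    exact Nat.eq_of_mul_eq_mul_left (pow_pos hp0 _) h2
  · intro y hy
    obtain ⟨⟨c, hc⟩, hy0⟩ := (mem_A y).1 hy
    have h2 := ZMod.val_lt y
    rw [hc, hq] at h2
    have h3 : c < p := lt_of_mul_lt_mul_left h2 (Nat.zero_le _)
    refine ⟨c, ?_, ?_⟩
    · rw [Finset.mem_Ico]
      refine ⟨?_, h3⟩
      rcases Nat.eq_zero_or_pos c with h | h
      · rw [h, mul_zero] at hc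
        exact absurd ((ZMod.val_eq_zero y).1 hc) hy0
      · exact h
    · rw [← hc, ZMod.natCast_zmod_val]

open Classical in
theorem card_fib (r : ZMod p) :
    (Finset.univ.filter fun y : ZMod (p ^ (j + 2)) => rho p j y = r).card = p ^ (j + 1) := by
  have hsurj : Function.Surjective (rho p j) := ZMod.castHom_surjective _
  have h1 : ∀ r : ZMod p, (Finset.univ.filter fun y : ZMod (p ^ (j + 2)) => rho p j y = r).card =
      (Finset.univ.filter fun y : ZMod (p ^ (j + 2)) => rho p j y = 0).card := by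
    intro r
    obtain ⟨y0, hy0⟩ := hsurj r
    apply Finset.card_bij (fun y _ => y - y0)
    · intro y hy
      simp only [Finset.mem_filter, Finset.mem_univ, true_and] at hy ⊢
      rw [map_sub, hy, hy0, sub_self]
    · intro a _ b _ h
      exact sub_left_injective h
    · intro y hy
      simp only [Finset.mem_filter, Finset.mem_univ, true_and] at hy
      refine ⟨y + y0, ?_, by ring⟩
      simp only [Finset.mem_filter, Finset.mem_univ, true_and]
      rw [map_add, hy, hy0, zero_add]
  have h2 : (Finset.univ : Finset (ZMod (p ^ (j + 2)))).card =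
      ∑ r ∈ (Finset.univ : Finset (ZMod p)),
        (Finset.univ.filter fun y : ZMod (p ^ (j + 2)) => rho p j y = r).card :=
    Finset.card_eq_sum_card_fiberwise (fun _ _ => Finset.mem_univ _)
  rw [Finset.sum_congr rfl (fun r _ => h1 r), Finset.sum_const, Finset.card_univ, ZMod.card,
    Finset.card_univ, ZMod.card, smul_eq_mul] at h2
  rw [h1 r]
  have h3 : p ^ (j + 2) = p * p ^ (j + 1) := by ring
  exact (Nat.eq_of_mul_eq_mul_left hp.out.pos (h3.symm.trans h2)).symm

open Classical in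
/-- counting by fibres -/
theorem card_fibres {k : ℕ} (T : Finset (Fin k → ZMod p))
    (B : (Fin k → ZMod p) → Fin k → Finset (ZMod (p ^ (j + 2)))) (N : Fin k → ℕ)
    (hB : ∀ r ∈ T, ∀ l, ∀ y ∈ B r l, rho p j y = r l) (hN : ∀ r ∈ T, ∀ l, (B r l).card = N l) :
    (T.biUnion fun r => Fintype.piFinset (B r)).card = T.card * ∏ l, N l := by
  rw [Finset.card_biUnion]
  · rw [Finset.sum_congr rfl (g := fun _ => ∏ l, N l), Finset.sum_const, smul_eq_mul]
    intro r hr
    rw [Fintype.card_piFinset]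
    exact Finset.prod_congr rfl fun l _ => hN r hr l
  · intro r hr r' hr' hne
    rw [Function.onFun, Finset.disjoint_left]
    intro v hv hv'
    apply hne
    ext l
    rw [Fintype.mem_piFinset] at hv hv'
    rw [← hB r hr l _ (hv l), ← hB r' hr' l _ (hv' l)]

theorem exZ_castSucc {k : ℕ} (v : Fin k → ZMod (p ^ (j + 2))) (i : Fin k) :
    exZ v i.castSucc = v i := by simp [exZ]

theorem exZ_last {k : ℕ} (v : Fin k → ZMod (p ^ (j + 2))) :
    exZ v (Fin.last k) = -∑ i, v i := by simp [exZ]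

open Classical in
/-- the vectors with entry `a` in `A`, the others not divisible by `p` -/
noncomputable def Sa {k : ℕ} (p j : ℕ) [Fact p.Prime] (a : Fin (k + 1)) :
    Finset (Fin k → ZMod (p ^ (j + 2))) :=
  Finset.univ.filter fun v => exZ v a ∈ Aset p j ∧ ∀ b, b ≠ a → rho p j (exZ v b) ≠ 0

open Classical in
/-- the vectors with no entry divisible by `p` -/
noncomputable def S0 (k p j : ℕ) [Fact p.Prime] : Finset (Fin k → ZMod (p ^ (j + 2))) :=
  Finset.univ.filter fun v => ∀ b, rho p j (exZ v b) ≠ 0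

theorem mem_Sa {k : ℕ} (a : Fin (k + 1)) (v : Fin k → ZMod (p ^ (j + 2))) :
    v ∈ Sa p j a ↔ exZ v a ∈ Aset p j ∧ ∀ b, b ≠ a → rho p j (exZ v b) ≠ 0 := by
  simp [Sa]

theorem mem_S0 {k : ℕ} (v : Fin k → ZMod (p ^ (j + 2))) :
    v ∈ S0 k p j ↔ ∀ b, rho p j (exZ v b) ≠ 0 := by
  simp [S0]

theorem mem_Sa_castSucc {k : ℕ} (i : Fin k) (v : Fin k → ZMod (p ^ (j + 2))) :
    v ∈ Sa p j i.castSucc ↔ v i ∈ Aset p j ∧ (∀ l, l ≠ i → rho p j (v l) ≠ 0) ∧
      ∑ l, rho p j (v l) ≠ 0 := by
  rw [mem_Sa, exZ_castSucc]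
  refine and_congr_right fun _ => ?_
  constructor
  · intro h
    refine ⟨fun l hl => ?_, ?_⟩
    · have := h l.castSucc (fun h' => hl (Fin.castSucc_injective k h'))
      rwa [exZ_castSucc] at this
    · have := h (Fin.last k) (Fin.castSucc_lt_last i).ne'
      rw [exZ_last, map_neg, neg_ne_zero, map_sum] at this
      exact this
  · rintro ⟨h1, h2⟩ b
    refine Fin.lastCases ?_ (fun l => ?_) b
    · intro _
      rw [exZ_last, map_neg, neg_ne_zero, map_sum]
      exact h2
    · intro hl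
      rw [exZ_castSucc]
      exact h1 l fun h' => hl (by rw [h'])

theorem mem_S0' {k : ℕ} (v : Fin k → ZMod (p ^ (j + 2))) :
    v ∈ S0 k p j ↔ (∀ l, rho p j (v l) ≠ 0) ∧ ∑ l, rho p j (v l) ≠ 0 := by
  rw [mem_S0]
  constructor
  · intro h
    refine ⟨fun l => ?_, ?_⟩
    · have := h l.castSucc
      rwa [exZ_castSucc] at this
    · have := h (Fin.last k)
      rw [exZ_last, map_neg, neg_ne_zero, map_sum] at this
      exact this
  · rintro ⟨h1, h2⟩ b
    refine Fin.lastCases ?_ (fun l => ?_) b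
    · rw [exZ_last, map_neg, neg_ne_zero, map_sum]
      exact h2
    · rw [exZ_castSucc]
      exact h1 l

open Classical in
theorem card_Sa_castSucc (h1 : T_CTP) {k : ℕ} (hk : 1 ≤ k) (i : Fin k) :
    ((Sa p j i.castSucc).card : ℝ) = cnt k p * (((p - 1 : ℕ) : ℝ) * ((p : ℝ) ^ (j + 1)) ^ (k - 1)) := by
  obtain ⟨-, hc, -⟩ := h1 k p hk hp.out
  have hc := hc i
  set T : Finset (Fin k → ZMod p) := Finset.univ.filter fun v => v i = 0 ∧ (∀ j, j ≠ i → v j ≠ 0) ∧
    ∑ j, v j ≠ 0 with hT
  have hTc : (T.card : ℝ) = cnt k p := by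
    rw [← hc, ← Set.ncard_coe_finset]
    congr 2
    ext v
    simp [hT]
  let B : (Fin k → ZMod p) → Fin k → Finset (ZMod (p ^ (j + 2))) := fun r l =>
    if l = i then Aset p j else Finset.univ.filter fun y => rho p j y = r l
  have hS : Sa p j i.castSucc = T.biUnion fun r => Fintype.piFinset (B r) := by
    ext v
    rw [mem_Sa_castSucc, Finset.mem_biUnion]
    constructor
    · rintro ⟨ha, hb, hs⟩
      refine ⟨fun l => rho p j (v l), ?_, ?_⟩
      · rw [hT]
        simp only [Finset.mem_filter, Finset.mem_univ, true_and]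
        exact ⟨rho_A ha, hb, hs⟩
      · rw [Fintype.mem_piFinset]
        intro l
        by_cases hl : l = i
        · subst hl
          simp only [B, if_true]
          exact ha
        · simp only [B, hl, if_false, Finset.mem_filter, Finset.mem_univ, true_and]
    · rintro ⟨r, hr, hv⟩
      rw [hT] at hr
      simp only [Finset.mem_filter, Finset.mem_univ, true_and] at hr
      obtain ⟨hr0, hr1, hr2⟩ := hr
      rw [Fintype.mem_piFinset] at hv
      have hvi : v i ∈ Aset p j := by
        have := hv i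
        simpa only [B, if_true] using this
      have hvl : ∀ l, l ≠ i → rho p j (v l) = r l := by
        intro l hl
        have := hv l
        simpa only [B, hl, if_false, Finset.mem_filter, Finset.mem_univ, true_and] using this
      have hall : ∀ l, rho p j (v l) = r l := by
        intro l
        by_cases hl : l = i
        · subst hl
          rw [rho_A hvi, hr0]
        · exact hvl l hl
      refine ⟨hvi, fun l hl => ?_, ?_⟩
      · rw [hvl l hl]
        exact hr1 l hl
      · rw [Finset.sum_congr rfl fun l _ => hall l]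
        exact hr2
  rw [hS, card_fibres T B (fun l => if l = i then p - 1 else p ^ (j + 1))]
  · rw [Nat.cast_mul, hTc]
    congr 1
    rw [Finset.prod_ite, Finset.prod_const, Finset.prod_const]
    have h2 : (Finset.univ.filter fun l : Fin k => l = i).card = 1 := by
      rw [Finset.filter_eq']
      simp
    have h3 : (Finset.univ.filter fun l : Fin k => ¬ l = i).card = k - 1 := by
      have := Finset.card_filter_add_card_filter_not (s := (Finset.univ : Finset (Fin k)))
        (p := fun l => l = i)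
      rw [h2, Finset.card_univ, Fintype.card_fin] at this
      omega
    rw [h2, h3, pow_one]
    push_cast
    ring
  · intro r hr l y hy
    rw [hT] at hr
    simp only [Finset.mem_filter, Finset.mem_univ, true_and] at hr
    by_cases hl : l = i
    · subst hl
      simp only [B, if_true] at hy
      rw [rho_A hy, hr.1]
    · simpa only [B, hl, if_false, Finset.mem_filter, Finset.mem_univ, true_and] using hy
  · intro r _ l
    by_cases hl : l = i
    · simp only [B, hl, if_true]
      exact card_A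
    · simp only [B, hl, if_false]
      exact card_fib _

open Classical in
theorem card_S0 (h1 : T_CTP) {k : ℕ} (hk : 1 ≤ k) :
    ((S0 k p j).card : ℝ) = cnt (k + 1) p * ((p : ℝ) ^ (j + 1)) ^ k := by
  obtain ⟨hc, -, -⟩ := h1 k p hk hp.out
  set T : Finset (Fin k → ZMod p) := Finset.univ.filter fun v => (∀ i, v i ≠ 0) ∧
    ∑ j, v j ≠ 0 with hT
  have hTc : (T.card : ℝ) = cnt (k + 1) p := by
    rw [← hc, ← Set.ncard_coe_finset]
    congr 2
    ext v
    simp [hT]
  let B : (Fin k → ZMod p) → Fin k → Finset (ZMod (p ^ (j + 2))) := fun r l =>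
    Finset.univ.filter fun y => rho p j y = r l
  have hS : S0 k p j = T.biUnion fun r => Fintype.piFinset (B r) := by
    ext v
    rw [mem_S0', Finset.mem_biUnion]
    constructor
    · rintro ⟨hb, hs⟩
      refine ⟨fun l => rho p j (v l), ?_, ?_⟩
      · rw [hT]
        simp only [Finset.mem_filter, Finset.mem_univ, true_and]
        exact ⟨hb, hs⟩
      · rw [Fintype.mem_piFinset]
        intro l
        simp only [B, Finset.mem_filter, Finset.mem_univ, true_and]
    · rintro ⟨r, hr, hv⟩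
      rw [hT] at hr
      simp only [Finset.mem_filter, Finset.mem_univ, true_and] at hr
      rw [Fintype.mem_piFinset] at hv
      have hall : ∀ l, rho p j (v l) = r l := by
        intro l
        have := hv l
        simpa only [B, Finset.mem_filter, Finset.mem_univ, true_and] using this
      refine ⟨fun l => ?_, ?_⟩
      · rw [hall l]
        exact hr.1 l
      · rw [Finset.sum_congr rfl fun l _ => hall l]
        exact hr.2
  rw [hS, card_fibres T B (fun _ => p ^ (j + 1))]
  · rw [Nat.cast_mul, hTc]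
    congr 1
    rw [Finset.prod_const, Finset.card_univ, Fintype.card_fin]
    push_cast
    ring
  · intro r _ l y hy
    simpa only [B, Finset.mem_filter, Finset.mem_univ, true_and] using hy
  · intro r _ l
    exact card_fib _

/-- exchange of the first and the last entry -/
noncomputable def swp {k : ℕ} (i : Fin k) (v : Fin k → ZMod (p ^ (j + 2))) :
    Fin k → ZMod (p ^ (j + 2)) :=
  Function.update v i (-∑ l, v l)

theorem sum_swp {k : ℕ} (i : Fin k) (v : Fin k → ZMod (p ^ (j + 2))) :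
    ∑ l, swp i v l = -v i := by
  unfold swp
  rw [Finset.sum_update_of_mem (Finset.mem_univ i), Finset.sdiff_singleton_eq_erase]
  have h := Finset.add_sum_erase Finset.univ v (Finset.mem_univ i)
  rw [← h]
  ring

theorem swp_swp {k : ℕ} (i : Fin k) (v : Fin k → ZMod (p ^ (j + 2))) :
    swp i (swp i v) = v := by
  have h := sum_swp i v
  unfold swp at h ⊢
  rw [h, neg_neg, Function.update_idem, Function.update_eq_self]

theorem exZ_swp_self {k : ℕ} (i : Fin k) (v : Fin k → ZMod (p ^ (j + 2))) :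
    exZ (swp i v) i.castSucc = exZ v (Fin.last k) := by
  rw [exZ_castSucc, exZ_last]
  simp [swp]

theorem exZ_swp_last {k : ℕ} (i : Fin k) (v : Fin k → ZMod (p ^ (j + 2))) :
    exZ (swp i v) (Fin.last k) = exZ v i.castSucc := by
  rw [exZ_castSucc, exZ_last, sum_swp, neg_neg]

theorem exZ_swp_other {k : ℕ} (i l : Fin k) (hl : l ≠ i) (v : Fin k → ZMod (p ^ (j + 2))) :
    exZ (swp i v) l.castSucc = exZ v l.castSucc := by
  rw [exZ_castSucc, exZ_castSucc]
  simp [swp, hl]

theorem card_Sa_last {k : ℕ} (i : Fin k) :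
    (Sa p j (Fin.last k)).card = (Sa p j i.castSucc).card := by
  apply Finset.card_nbij' (swp i) (swp i)
  · intro v hv
    rw [Finset.mem_coe, mem_Sa] at hv ⊢
    obtain ⟨h1, h2⟩ := hv
    refine ⟨by rw [exZ_swp_self]; exact h1, fun b => ?_⟩
    refine Fin.lastCases ?_ (fun l => ?_) b
    · intro _
      rw [exZ_swp_last]
      exact h2 _ (Fin.castSucc_lt_last i).ne
    · intro hl
      have hl' : l ≠ i := fun h => hl (by rw [h])
      rw [exZ_swp_other i l hl']
      exact h2 _ (Fin.castSucc_lt_last l).ne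
  · intro v hv
    rw [Finset.mem_coe, mem_Sa] at hv ⊢
    obtain ⟨h1, h2⟩ := hv
    refine ⟨by rw [exZ_swp_last]; exact h1, fun b => ?_⟩
    refine Fin.lastCases ?_ (fun l => ?_) b
    · intro h
      exact absurd rfl h
    · intro _
      by_cases hl : l = i
      · subst hl
        rw [exZ_swp_self]
        exact h2 _ (Fin.castSucc_lt_last l).ne'
      · rw [exZ_swp_other i l hl]
        exact h2 _ fun h => hl (Fin.castSucc_injective k h)
  · intro v _
    exact swp_swp i v
  · intro v _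
    exact swp_swp i v

theorem card_Sa (h1 : T_CTP) {k : ℕ} (hk : 1 ≤ k) (a : Fin (k + 1)) :
    ((Sa p j a).card : ℝ) = cnt k p * (((p - 1 : ℕ) : ℝ) * ((p : ℝ) ^ (j + 1)) ^ (k - 1)) := by
  refine Fin.lastCases ?_ (fun i => ?_) a
  · rw [card_Sa_last ⟨0, hk⟩]
    exact card_Sa_castSucc h1 hk _
  · exact card_Sa_castSucc h1 hk i

open Classical in
theorem loc_mem {k : ℕ} (v : Fin k → ZMod (p ^ (j + 2))) :
    Loc p j (ext fun i => ((v i).val : ℤ)) ↔
      v ∈ (if j = 0 then S0 k p j else ∅) ∪ Finset.univ.biUnion fun a => Sa p j a := by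
  rw [loc_iff, Finset.mem_union, Finset.mem_biUnion]
  constructor
  · rintro ⟨hU, hj⟩
    by_cases h : ∃ a, rho p j (exZ v a) = 0
    · obtain ⟨a, ha⟩ := h
      right
      by_cases hj0 : j = 0
      · rw [if_pos hj0] at hj
        refine ⟨a, Finset.mem_univ _, ?_⟩
        rw [mem_Sa, mem_A]
        refine ⟨⟨?_, hj a⟩, fun b hb h' => hU b a hb ⟨h', ha⟩⟩
        rw [rho_zero] at ha
        have e : p ^ (j + 1) = p := by rw [hj0, zero_add, pow_one]
        rw [e]
        exact ha
      · rw [if_neg hj0] at hj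
        obtain ⟨a', ha'⟩ := hj
        have hA := (mem_A _).2 ha'
        refine ⟨a', Finset.mem_univ _, ?_⟩
        rw [mem_Sa]
        exact ⟨hA, fun b hb h' => hU b a' hb ⟨h', rho_A hA⟩⟩
    · have h : ∀ a, rho p j (exZ v a) ≠ 0 := fun a ha => h ⟨a, ha⟩
      by_cases hj0 : j = 0
      · left
        rw [if_pos hj0, mem_S0]
        exact h
      · rw [if_neg hj0] at hj
        obtain ⟨a', ha'⟩ := hj
        exact absurd (rho_A ((mem_A _).2 ha')) (h a')
  · rintro (h | ⟨a, -, h⟩)
    · by_cases hj0 : j = 0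
      · rw [if_pos hj0, mem_S0] at h
        rw [if_pos hj0]
        refine ⟨fun a b _ h' => h a h'.1, fun a h' => h a ?_⟩
        rw [h', map_zero]
      · rw [if_neg hj0] at h
        exact absurd h (Finset.notMem_empty _)
    · rw [mem_Sa] at h
      obtain ⟨hA, hb⟩ := h
      refine ⟨fun b c hbc h' => ?_, ?_⟩
      · by_cases hba : b = a
        · exact hb c (fun h => hbc (hba.trans h.symm)) h'.2
        · exact hb b hba h'.1
      · by_cases hj0 : j = 0
        · rw [if_pos hj0]
          intro b hb0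
          by_cases hba : b = a
          · rw [hba] at hb0
            exact ((mem_A _).1 hA).2 hb0
          · refine hb b hba ?_
            rw [hb0, map_zero]
        · rw [if_neg hj0]
          exact ⟨a, (mem_A _).1 hA⟩

open Classical in
theorem card_all (h1 : T_CTP) {k : ℕ} (hk : 1 ≤ k) :
    ({v : Fin k → ZMod (p ^ (j + 2)) | Loc p j (ext fun i => ((v i).val : ℤ))}.ncard : ℝ) =
      (if j = 0 then cnt (k + 1) p * ((p : ℝ) ^ (j + 1)) ^ k else 0) +
        ((k : ℝ) + 1) * (cnt k p * (((p - 1 : ℕ) : ℝ) * ((p : ℝ) ^ (j + 1)) ^ (k - 1))) := by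
  have hset : {v : Fin k → ZMod (p ^ (j + 2)) | Loc p j (ext fun i => ((v i).val : ℤ))} =
      (((if j = 0 then S0 k p j else ∅) ∪ Finset.univ.biUnion fun a => Sa p j a :
        Finset (Fin k → ZMod (p ^ (j + 2)))) : Set (Fin k → ZMod (p ^ (j + 2)))) := by
    ext v
    rw [Set.mem_setOf_eq, loc_mem, Finset.mem_coe]
  rw [hset, Set.ncard_coe_finset, Finset.card_union_of_disjoint, Finset.card_biUnion]
  · rw [Nat.cast_add, Nat.cast_sum, Finset.sum_congr rfl (fun a _ => card_Sa h1 hk a),
      Finset.sum_const, Finset.card_univ, Fintype.card_fin, nsmul_eq_mul]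
    congr 1
    · by_cases hj0 : j = 0
      · rw [if_pos hj0, if_pos hj0]
        exact card_S0 h1 hk
      · rw [if_neg hj0, if_neg hj0]
        simp
    · push_cast
      ring
  · intro a _ b _ hab
    rw [Function.onFun, Finset.disjoint_left]
    intro v hv hv'
    rw [mem_Sa] at hv hv'
    exact hv'.2 a hab (rho_A hv.1)
  · rw [Finset.disjoint_left]
    intro v hv hv'
    by_cases hj0 : j = 0
    · rw [if_pos hj0, mem_S0] at hv
      obtain ⟨a, -, ha⟩ := Finset.mem_biUnion.1 hv'
      rw [mem_Sa] at ha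
      exact hv a (rho_A ha.1)
    · rw [if_neg hj0] at hv
      exact absurd hv (Finset.notMem_empty _)

end

theorem pf_LOC (h1 : T_CTP) : T_LOC := by
  intro k p j hk hp
  haveI : Fact p.Prime := ⟨hp⟩
  have hP : (p : ℝ) ≠ 0 := by exact_mod_cast hp.ne_zero
  rw [card_all h1 hk]
  obtain ⟨m, rfl⟩ : ∃ m, k = m + 1 := ⟨k - 1, by omega⟩
  have hp1 : ((p - 1 : ℕ) : ℝ) = (p : ℝ) - 1 := by
    rw [Nat.cast_sub hp.one_le, Nat.cast_one]
  have hpow : ((p : ℝ) ^ (j + 2)) ^ (m + 1) =
      (p : ℝ) ^ j * (p : ℝ) ^ (m + 1) * (p : ℝ) * ((p : ℝ) ^ (j + 1)) ^ m := by ring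
  unfold wloc
  rw [hpow, hp1]
  simp only [Nat.add_sub_cancel]
  by_cases hj0 : j = 0
  · rw [if_pos hj0, if_pos hj0]
    subst hj0
    push_cast
    field_simp
    ring
  · rw [if_neg hj0, if_neg hj0]
    push_cast
    field_simp
    ring

end Pool.Agent.H35.EQ
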